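import Mathlib

set_option autoImplicit false

/-!
# Assouad dimension of graphs close to a uniformly oscillating function
-/

namespace Pool.Agent.H200.Assouad

open Set Metric Filter Topology

/-! ### Definitions: packing numbers and dimensions -/

/-- The Euclidean plane. -/
abbrev Plane : Type := EuclideanSpace ℝ (Fin 2)

/-- `N_r(E) ≤ b`: every finite set of points of `E` such that the closed balls of radius `r` around
them are pairwise disjoint has at most `b` elements. -/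
def PackLE {X : Type*} [MetricSpace X] (r : ℝ) (E : Set X) (b : ℝ) : Prop :=
  ∀ P : Finset X, (P : Set X) ⊆ E → (P : Set X).PairwiseDisjoint (fun x => closedBall x r) →
    (P.card : ℝ) ≤ b

/-- The Assouad dimension of `F`. -/
noncomputable def assouadDim (F : Set Plane) : ℝ :=
  sInf {β : ℝ | ∃ C : ℝ, 0 < C ∧ ∀ r R : ℝ, 0 < r → r < R → ∀ x ∈ F,
    PackLE r (ball x R ∩ F) (C * (R / r) ^ β)}

/-- The Assouad spectrum of `F` at `θ`. -/
noncomputable def assouadSpec (θ : ℝ) (F : Set Plane) : ℝ :=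
  sInf {β : ℝ | ∃ C : ℝ, 0 < C ∧ ∀ r : ℝ, 0 < r → r < 1 → ∀ x ∈ F,
    PackLE r (ball x (r ^ θ) ∩ F) (C * (r ^ (θ - 1)) ^ β)}

/-- The graph of a function on `[0,1]`. -/
def graph (f : unitInterval → ℝ) : Set Plane := {q | ∃ x : unitInterval, q = !₂[(x : ℝ), f x]}

/-! ### Iteration of a one-step saving -/

section step

variable {X : Type*} [MetricSpace X]

lemma iterate_cover (F : Set X) (n : ℕ) (l R₀ : ℝ) (hl0 : 0 < l) (hl1 : l ≤ 1)
    (h : ∀ x ∈ F, ∀ R, 0 < R → R ≤ R₀ → ∃ A : Finset X, (A : Set X) ⊆ F ∧ A.card ≤ n ∧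
      ∀ y ∈ F, dist y x ≤ R → ∃ q ∈ A, dist y q ≤ l * R) :
    ∀ j : ℕ, ∀ x ∈ F, ∀ R, 0 < R → R ≤ R₀ → ∃ A : Finset X, (A : Set X) ⊆ F ∧ A.card ≤ n ^ j ∧
      ∀ y ∈ F, dist y x ≤ R → ∃ q ∈ A, dist y q ≤ l ^ j * R := by
  classical
  intro j
  induction j with
  | zero =>
    intro x hx R hR hR0
    refine ⟨{x}, by simpa using hx, by simp, fun y hy hd => ⟨x, by simp, by simpa using hd⟩⟩
  | succ j ih =>
    intro x hx R hR hR0
    obtain ⟨A, hAF, hAc, hA⟩ := ih x hx R hR hR0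
    have hlj : 0 < l ^ j := pow_pos hl0 j
    have hlj1 : l ^ j ≤ 1 := pow_le_one₀ hl0.le hl1
    have hstep : ∀ q : X, ∃ B : Finset X, (B : Set X) ⊆ F ∧ B.card ≤ n ∧
        (q ∈ F → ∀ y ∈ F, dist y q ≤ l ^ j * R → ∃ p ∈ B, dist y p ≤ l * (l ^ j * R)) := by
      intro q
      by_cases hq : q ∈ F
      · obtain ⟨B, h1, h2, h3⟩ := h q hq (l ^ j * R) (by positivity)
          ((mul_le_of_le_one_left hR.le hlj1).trans hR0)
        exact ⟨B, h1, h2, fun _ => h3⟩
      · exact ⟨∅, by simp, by simp, fun hq' => absurd hq' hq⟩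
    choose B hBF hBc hB using hstep
    refine ⟨A.biUnion B, ?_, ?_, ?_⟩
    · intro y hy
      simp only [Finset.coe_biUnion, Set.mem_iUnion] at hy
      obtain ⟨q, _, hy⟩ := hy
      exact hBF q hy
    · calc (A.biUnion B).card ≤ A.card * n := Finset.card_biUnion_le_card_mul _ _ _ fun q _ => hBc q
        _ ≤ n ^ j * n := Nat.mul_le_mul_right _ hAc
        _ = n ^ (j + 1) := (pow_succ n j).symm
    · intro y hy hd
      obtain ⟨q, hq, hyq⟩ := hA y hy hd
      obtain ⟨p, hp, hyp⟩ := hB q (hAF hq) y hy hyq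
      exact ⟨p, Finset.mem_biUnion.2 ⟨q, hq, hp⟩, by rw [pow_succ]; linarith [hyp]⟩

lemma pack_of_cover {F : Set X} {A : Finset X} {x : X} {R ρ r : ℝ} (hr : ρ ≤ r)
    (hA : ∀ y ∈ F, dist y x ≤ R → ∃ q ∈ A, dist y q ≤ ρ) (P : Finset X)
    (hP : ∀ y ∈ P, y ∈ F ∧ dist y x ≤ R)
    (hd : (P : Set X).PairwiseDisjoint (fun x => closedBall x r)) : P.card ≤ A.card := by
  classical
  have h1 : ∀ y : P, ∃ q ∈ A, dist (y : X) q ≤ ρ := fun y => hA y (hP y y.2).1 (hP y y.2).2
  choose f hfA hf using h1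
  refine Finset.card_le_card_of_injOn (fun y => if h : y ∈ P then f ⟨y, h⟩ else y) ?_ ?_
  · intro y hy
    have hy' : y ∈ P := hy
    simp only [hy', dif_pos]
    exact hfA ⟨y, hy'⟩
  · intro y hy z hz hyz
    have hy' : y ∈ P := hy
    have hz' : z ∈ P := hz
    simp only [hy', hz', dif_pos] at hyz
    by_contra hne
    have hdis := hd hy hz hne
    refine (Set.disjoint_left.1 hdis) (a := f ⟨y, hy'⟩) ?_ ?_
    · rw [mem_closedBall, dist_comm]
      exact (hf ⟨y, hy'⟩).trans hr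
    · rw [mem_closedBall, hyz, dist_comm]
      exact (hf ⟨z, hz'⟩).trans hr

/-- From a one-step saving to a bound for all pairs of scales. -/
lemma pack_bound (F : Set X) (n : ℕ) (l R₀ : ℝ) (hn : 1 ≤ n) (hl0 : 0 < l) (hl1 : l < 1)
    (hR₀ : 0 < R₀) (hF : TotallyBounded F)
    (h : ∀ x ∈ F, ∀ R, 0 < R → R ≤ R₀ → ∃ A : Finset X, (A : Set X) ⊆ F ∧ A.card ≤ n ∧
      ∀ y ∈ F, dist y x ≤ R → ∃ q ∈ A, dist y q ≤ l * R) :
    ∃ C : ℝ, 0 < C ∧ ∀ r R : ℝ, 0 < r → r < R → ∀ x ∈ F,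
      PackLE r (ball x R ∩ F) (C * (R / r) ^ (Real.log n / Real.log (1 / l))) := by
  classical
  set s := Real.log n / Real.log (1 / l) with hs
  have hlog : 0 < Real.log (1 / l) := Real.log_pos (by rw [lt_div_iff₀ hl0]; linarith)
  have hs0 : 0 ≤ s := div_nonneg (Real.log_natCast_nonneg n) hlog.le
  have hnpos : (0 : ℝ) < n := by exact_mod_cast hn
  have hns : (1 / l) ^ s = (n : ℝ) := by
    rw [Real.rpow_def_of_pos (by positivity), hs, mul_div_cancel₀ _ hlog.ne', Real.exp_log hnpos]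
  have hit := iterate_cover F n l R₀ hl0 hl1.le h
  -- the case `R ≤ R₀`
  have small : ∀ r R : ℝ, 0 < r → r < R → R ≤ R₀ → ∀ x ∈ F, ∀ P : Finset X,
      (∀ y ∈ P, y ∈ F ∧ dist y x ≤ R) →
      (P : Set X).PairwiseDisjoint (fun x => closedBall x r) →
      (P.card : ℝ) ≤ n * (R / r) ^ s := by
    intro r R hr hrR hR x hx P hP hd
    have hRpos : 0 < R := hr.trans hrR
    obtain ⟨j, hj⟩ : ∃ j : ℕ, l ^ j * R ≤ r := by
      obtain ⟨j, hj⟩ := exists_pow_lt_of_lt_one (div_pos hr hRpos) hl1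
      exact ⟨j, by rw [lt_div_iff₀ hRpos] at hj; exact hj.le⟩
    have hfind := Nat.find_spec (p := fun j => l ^ j * R ≤ r) ⟨j, hj⟩
    set i := Nat.find (p := fun j => l ^ j * R ≤ r) ⟨j, hj⟩ with hi
    have hi0 : i ≠ 0 := by
      intro h0
      rw [h0] at hfind
      simp only [pow_zero, one_mul] at hfind
      linarith
    obtain ⟨k, hk⟩ := Nat.exists_eq_succ_of_ne_zero hi0
    have hk' : ¬ l ^ k * R ≤ r := Nat.find_min (p := fun j => l ^ j * R ≤ r) ⟨j, hj⟩ (by omega)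
    push Not at hk'
    obtain ⟨A, -, hAc, hA⟩ := hit i x hx R hRpos hR
    have hcard := pack_of_cover hfind hA P hP hd
    have h1 : (P.card : ℝ) ≤ (n : ℝ) ^ i := by
      have := hcard.trans hAc
      exact_mod_cast this
    have h2 : (1 / l) ^ k ≤ R / r := by
      rw [le_div_iff₀ hr, one_div, inv_pow, inv_mul_le_iff₀ (pow_pos hl0 k)]
      exact hk'.le
    have h3 : (n : ℝ) ^ k ≤ (R / r) ^ s := by
      calc (n : ℝ) ^ k = ((1 / l) ^ s) ^ k := by rw [hns]
        _ = ((1 / l) ^ k) ^ s := by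
            rw [← Real.rpow_natCast, ← Real.rpow_natCast, ← Real.rpow_mul (by positivity),
              ← Real.rpow_mul (by positivity), mul_comm]
        _ ≤ (R / r) ^ s := Real.rpow_le_rpow (by positivity) h2 hs0
    calc (P.card : ℝ) ≤ (n : ℝ) ^ i := h1
      _ = n * (n : ℝ) ^ k := by rw [hk, Nat.succ_eq_add_one, pow_succ, mul_comm]
      _ ≤ n * (R / r) ^ s := by gcongr
  -- finitely many balls of radius `R₀`
  obtain ⟨T, hTF, hTfin, hT⟩ := Metric.finite_approx_of_totallyBounded hF R₀ hR₀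
  have hT' : ∀ y ∈ F, ∃ q ∈ T, dist y q < R₀ := by
    intro y hy
    have := hT hy
    simp only [Set.mem_iUnion, mem_ball] at this
    obtain ⟨q, hq, hyq⟩ := this
    exact ⟨q, hq, hyq⟩
  set t := hTfin.toFinset with ht
  refine ⟨n * (t.card + 1), by positivity, ?_⟩
  intro r R hr hrR x hx P hPE hd
  have hRpos : 0 < R := hr.trans hrR
  have hone : 1 ≤ (R / r) ^ s := Real.one_le_rpow (by rw [le_div_iff₀ hr]; linarith) hs0
  have hP : ∀ y ∈ P, y ∈ F ∧ dist y x ≤ R := fun y hy =>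
    ⟨(hPE hy).2, (mem_ball.1 (hPE hy).1).le⟩
  have hn1 : (1 : ℝ) ≤ n := by exact_mod_cast hn
  by_cases hR : R ≤ R₀
  · refine (small r R hr hrR hR x hx P hP hd).trans ?_
    have : (n : ℝ) ≤ n * (t.card + 1) := by
      have : (0 : ℝ) ≤ t.card := by positivity
      nlinarith
    gcongr
  push Not at hR
  by_cases hr0 : r < R₀
  · -- split `P` along the balls
    have hsub : P ⊆ t.biUnion fun q => P.filter fun y => dist y q ≤ R₀ := by
      intro y hy
      obtain ⟨q, hq, hyq⟩ := hT' y (hP y hy).1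
      refine Finset.mem_biUnion.2 ⟨q, by rw [ht]; exact hTfin.mem_toFinset.2 hq, ?_⟩
      exact Finset.mem_filter.2 ⟨hy, hyq.le⟩
    have hc : ∀ q ∈ t, ((P.filter fun y => dist y q ≤ R₀).card : ℝ) ≤ n * (R / r) ^ s := by
      intro q hq
      have hqF : q ∈ F := hTF (hTfin.mem_toFinset.1 hq)
      refine (small r R₀ hr hr0 le_rfl q hqF _ ?_ ?_).trans ?_
      · intro y hy
        rw [Finset.mem_filter] at hy
        exact ⟨(hP y hy.1).1, hy.2⟩
      · refine hd.subset ?_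
        intro y hy
        exact (Finset.mem_filter.1 hy).1
      · gcongr
    calc (P.card : ℝ) ≤ ((t.biUnion fun q => P.filter fun y => dist y q ≤ R₀).card : ℝ) := by
          exact_mod_cast Finset.card_le_card hsub
      _ ≤ ((∑ q ∈ t, (P.filter fun y => dist y q ≤ R₀).card : ℕ) : ℝ) := by
          exact_mod_cast Finset.card_biUnion_le
      _ = ∑ q ∈ t, ((P.filter fun y => dist y q ≤ R₀).card : ℝ) := by push_cast; rfl
      _ ≤ ∑ _q ∈ t, n * (R / r) ^ s := Finset.sum_le_sum hc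
      _ = t.card * (n * (R / r) ^ s) := by rw [Finset.sum_const, nsmul_eq_mul]
      _ ≤ n * (t.card + 1) * (R / r) ^ s := by
          have : 0 ≤ (n : ℝ) * (R / r) ^ s := by positivity
          nlinarith
  · push Not at hr0
    have hc : P.card ≤ t.card := by
      refine pack_of_cover (F := F) (x := x) (R := R) hr0 ?_ P hP hd
      intro y hy _
      obtain ⟨q, hq, hyq⟩ := hT' y hy
      exact ⟨q, hTfin.mem_toFinset.2 hq, hyq.le⟩
    calc (P.card : ℝ) ≤ t.card := by exact_mod_cast hc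
      _ ≤ n * (t.card + 1) * 1 := by
          have : (0 : ℝ) ≤ t.card := by positivity
          nlinarith
      _ ≤ n * (t.card + 1) * (R / r) ^ s := by gcongr

end step

/-! ### Porosity of the set where an oscillating function stays in a short window -/

/-- Hölder bound with constant `M` and exponent `1/2`, and oscillation at least `c √ρ` on each
interval of length `ρ`. -/
structure Osc (G : ℝ → ℝ) (M c : ℝ) : Prop where
  up : ∀ x ∈ Icc (0 : ℝ) 1, ∀ y ∈ Icc (0 : ℝ) 1, |G x - G y| ≤ M * √|x - y|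
  low : ∀ a ρ : ℝ, 0 ≤ a → 0 < ρ → a + ρ ≤ 1 →
    ∃ x ∈ Icc a (a + ρ), ∃ y ∈ Icc a (a + ρ), c * √ρ ≤ |G x - G y|

section porosity

variable {G : ℝ → ℝ} {M c : ℝ} {m : ℕ}

lemma free_point (hG : Osc G M c) (hM : 0 < M) (hc : 0 < c) (hm : (4 * M / c) ^ 2 < m)
    {a ρ R : ℝ} (v : ℝ) (ha : 0 ≤ a) (hρ : 0 < ρ) (haρ : a + ρ ≤ 1) (hR : 4 * R ≤ c * √ρ) :
    ∃ x ∈ Icc a (a + ρ), ∀ z ∈ Icc (0 : ℝ) 1, |z - x| ≤ ρ / m → R < |G z - v| := by
  obtain ⟨x, hx, y, hy, hxy⟩ := hG.low a ρ ha hρ haρ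
  have hsρ : 0 < √ρ := Real.sqrt_pos.2 hρ
  have hmpos : (0 : ℝ) < m := lt_of_le_of_lt (sq_nonneg _) hm
  have key : ∀ x ∈ Icc a (a + ρ), c * √ρ / 2 ≤ |G x - v| →
      ∀ z ∈ Icc (0 : ℝ) 1, |z - x| ≤ ρ / m → R < |G z - v| := by
    intro x hx hxv z hz hzx
    have hx01 : x ∈ Icc (0 : ℝ) 1 := ⟨ha.trans hx.1, hx.2.trans haρ⟩
    have h1 := hG.up z hz x hx01
    have h2 : √|z - x| ≤ √ρ / √m := by
      rw [← Real.sqrt_div hρ.le]
      exact Real.sqrt_le_sqrt hzx
    have hsm : 4 * M / c < √m := by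
      rw [← Real.sqrt_sq (by positivity : 0 ≤ 4 * M / c)]
      exact Real.sqrt_lt_sqrt (sq_nonneg _) hm
    have hsmpos : 0 < √(m : ℝ) := Real.sqrt_pos.2 hmpos
    have h3 : M * (√ρ / √m) < c * √ρ / 4 := by
      rw [div_lt_iff₀ hc] at hsm
      rw [← mul_div_assoc, div_lt_iff₀ hsmpos]
      nlinarith
    have h4 : |G x - v| ≤ |G z - v| + |G z - G x| := by
      have := abs_sub_abs_le_abs_sub (G x - v) (G z - v)
      have h5 : |G x - v - (G z - v)| = |G z - G x| := by
        rw [abs_sub_comm (G z)]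
        congr 1
        ring
      linarith
    have h6 : M * √|z - x| ≤ M * (√ρ / √m) := by gcongr
    linarith
  by_cases h : c * √ρ / 2 ≤ |G x - v|
  · exact ⟨x, hx, key x hx h⟩
  · refine ⟨y, hy, key y hy ?_⟩
    push Not at h
    have := abs_sub_abs_le_abs_sub (G x - v) (G y - v)
    have h5 : |G x - G y| ≤ |G x - v| + |G y - v| := by
      calc |G x - G y| = |(G x - v) - (G y - v)| := by congr 1; ring
        _ ≤ _ := abs_sub _ _
    linarith

lemma cover_window (hG : Osc G M c) (hM : 0 < M) (hc : 0 < c) (hm : (4 * M / c) ^ 2 < m)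
    (R v : ℝ) : ∀ k : ℕ, ∀ a ρ : ℝ, 0 ≤ a → 0 < ρ → a + ρ ≤ 1 →
      (∀ i < k, 4 * R ≤ c * √(ρ / m ^ i)) →
      ∃ A : Finset ℝ, A.card ≤ (m - 1) ^ k ∧
        ∀ z ∈ Icc a (a + ρ), |G z - v| ≤ R → ∃ b ∈ A, b ≤ z ∧ z ≤ b + ρ / m ^ k := by
  classical
  have hmpos : (0 : ℝ) < m := lt_of_le_of_lt (sq_nonneg _) hm
  have hmpos' : 0 < m := by exact_mod_cast hmpos
  intro k
  induction k with
  | zero =>
    intro a ρ ha hρ haρ _
    exact ⟨{a}, by simp, fun z hz _ => ⟨a, by simp, hz.1, by simpa using hz.2⟩⟩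
  | succ k ih =>
    intro a ρ ha hρ haρ hR
    obtain ⟨x, hx, hfree⟩ := free_point hG hM hc hm v ha hρ haρ
      (by simpa using hR 0 (Nat.succ_pos k))
    have hd : 0 < ρ / m := div_pos hρ hmpos
    -- the index of the child which contains a point
    set idx : ℝ → ℕ := fun z => min ⌊(z - a) / (ρ / m)⌋₊ (m - 1) with hidx
    have hidx_lt : ∀ z, idx z < m := fun z => by
      rw [hidx]
      exact lt_of_le_of_lt (min_le_right _ _) (by omega)
    have hidx_mem : ∀ z ∈ Icc a (a + ρ), a + idx z * (ρ / m) ≤ z ∧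
        z ≤ a + idx z * (ρ / m) + ρ / m := by
      intro z hz
      have h0 : 0 ≤ (z - a) / (ρ / m) := div_nonneg (by linarith [hz.1]) hd.le
      constructor
      · have h1 : (idx z : ℝ) ≤ (z - a) / (ρ / m) := by
          calc (idx z : ℝ) ≤ (⌊(z - a) / (ρ / m)⌋₊ : ℝ) := by
                exact_mod_cast min_le_left _ _
            _ ≤ _ := Nat.floor_le h0
        rw [le_div_iff₀ hd] at h1
        linarith
      · by_cases hcase : ⌊(z - a) / (ρ / m)⌋₊ ≤ m - 1
        · have h1 : idx z = ⌊(z - a) / (ρ / m)⌋₊ := min_eq_left hcase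
          have h2 := Nat.lt_floor_add_one ((z - a) / (ρ / m))
          rw [← h1, div_lt_iff₀ hd] at h2
          linarith
        · have h1 : idx z = m - 1 := min_eq_right (by omega)
          have h2 : ((m - 1 : ℕ) : ℝ) = m - 1 := by
            rw [Nat.cast_sub hmpos']; simp
          rw [h1, h2]
          have h3 : (m : ℝ) * (ρ / m) = ρ := mul_div_cancel₀ ρ hmpos.ne'
          have h4 := hz.2
          nlinarith
    have hchild : ∀ i : ℕ, i < m → ∃ A : Finset ℝ, A.card ≤ (m - 1) ^ k ∧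
        ∀ z ∈ Icc (a + i * (ρ / m)) (a + i * (ρ / m) + ρ / m), |G z - v| ≤ R →
          ∃ b ∈ A, b ≤ z ∧ z ≤ b + ρ / m / m ^ k := by
      intro i hi
      have hi' : ((i : ℝ) + 1) ≤ m := by exact_mod_cast hi
      have h3 : (m : ℝ) * (ρ / m) = ρ := mul_div_cancel₀ ρ hmpos.ne'
      refine ih (a + i * (ρ / m)) (ρ / m) (by positivity) hd ?_ ?_
      · nlinarith
      · intro j hj
        have := hR (j + 1) (by omega)
        rwa [pow_succ', ← div_div] at this
    have hchild' : ∀ i : ℕ, ∃ A : Finset ℝ, A.card ≤ (m - 1) ^ k ∧ (i < m →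
        ∀ z ∈ Icc (a + i * (ρ / m)) (a + i * (ρ / m) + ρ / m), |G z - v| ≤ R →
          ∃ b ∈ A, b ≤ z ∧ z ≤ b + ρ / m / m ^ k) := by
      intro i
      by_cases hi : i < m
      · obtain ⟨A, h1, h2⟩ := hchild i hi
        exact ⟨A, h1, fun _ => h2⟩
      · exact ⟨∅, by simp, fun h => absurd h hi⟩
    choose A hAc hA using hchild'
    refine ⟨((Finset.range m).erase (idx x)).biUnion A, ?_, ?_⟩
    · calc (((Finset.range m).erase (idx x)).biUnion A).card
          ≤ ((Finset.range m).erase (idx x)).card * (m - 1) ^ k :=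
            Finset.card_biUnion_le_card_mul _ _ _ fun q _ => hAc q
        _ = (m - 1) * (m - 1) ^ k := by
            rw [Finset.card_erase_of_mem (Finset.mem_range.2 (hidx_lt x)), Finset.card_range]
        _ = (m - 1) ^ (k + 1) := (pow_succ' _ _).symm
    · intro z hz hzv
      have hz1 := hidx_mem z hz
      have hne : idx z ≠ idx x := by
        intro he
        have hx1 := hidx_mem x hx
        rw [← he] at hx1
        have hzx : |z - x| ≤ ρ / m := by
          rw [abs_le]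
          constructor <;> linarith [hz1.1, hz1.2, hx1.1, hx1.2]
        have := hfree z ⟨ha.trans hz.1, hz.2.trans haρ⟩ hzx
        linarith
      obtain ⟨b, hb, hb1, hb2⟩ := hA (idx z) (hidx_lt z) z ⟨hz1.1, hz1.2⟩ hzv
      refine ⟨b, Finset.mem_biUnion.2 ⟨idx z, ?_, hb⟩, hb1, ?_⟩
      · exact Finset.mem_erase.2 ⟨hne, Finset.mem_range.2 (hidx_lt z)⟩
      · rwa [pow_succ', ← div_div]

end porosity

/-! ### Graphs -/

section graphs

lemma plane_dist_le (p q : Plane) : dist p q ≤ |p 0 - q 0| + |p 1 - q 1| := by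
  rw [EuclideanSpace.dist_eq, Fin.sum_univ_two, Real.dist_eq, Real.dist_eq]
  rw [Real.sqrt_le_left (by positivity)]
  have := abs_nonneg (p 0 - q 0)
  have := abs_nonneg (p 1 - q 1)
  nlinarith

lemma abs_coord_le (p q : Plane) (i : Fin 2) : |p i - q i| ≤ dist p q := by
  rw [EuclideanSpace.dist_eq, ← Real.dist_eq]
  refine Real.le_sqrt_of_sq_le ?_
  exact Finset.single_le_sum (f := fun i => dist (p i) (q i) ^ 2) (fun i _ => sq_nonneg _)
    (Finset.mem_univ i)

lemma continuous_of_osc {g : unitInterval → ℝ} {M c : ℝ}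
    (hG : Osc (IccExtend zero_le_one g) M c) : Continuous g := by
  rw [continuous_iff_continuousAt]
  intro x
  rw [ContinuousAt, tendsto_iff_dist_tendsto_zero]
  refine squeeze_zero (g := fun y : unitInterval => M * √|(y : ℝ) - x|)
    (fun y => dist_nonneg) (fun y => ?_) ?_
  · have := hG.up y y.2 x x.2
    rw [IccExtend_val, IccExtend_val] at this
    rwa [Real.dist_eq]
  · have hcont : Continuous fun y : unitInterval => M * √|(y : ℝ) - x| := by fun_prop
    have := hcont.tendsto x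
    simpa using this

lemma totallyBounded_graph {g : unitInterval → ℝ} (hg : Continuous g) :
    TotallyBounded (graph g) := by
  have h : graph g = Set.range fun x : unitInterval => (!₂[(x : ℝ), g x] : Plane) := by
    ext q
    constructor
    · rintro ⟨x, hx⟩
      exact ⟨x, hx.symm⟩
    · rintro ⟨x, hx⟩
      exact ⟨x, hx.symm⟩
  rw [h]
  refine (isCompact_range ?_).totallyBounded
  refine (PiLp.continuous_toLp 2 _).comp ?_
  refine continuous_pi fun i => ?_
  fin_cases i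
  · exact continuous_subtype_val
  · exact hg

lemma one_step {M c : ℝ} {m k : ℕ} (hM : 0 < M) (hc : 0 < c) (hm : (4 * M / c) ^ 2 < m)
    {g : unitInterval → ℝ} (hG : Osc (IccExtend zero_le_one g) M c) (x₀ : Plane)
    (hx₀ : x₀ ∈ graph g) (R : ℝ) (hR : 0 < R) (hR1 : R ≤ 1 / 2)
    (hR2 : R ≤ c ^ 2 / (8 * (m : ℝ) ^ k)) :
    ∃ A : Finset Plane, (A : Set Plane) ⊆ graph g ∧
      A.card ≤ (m - 1) ^ k * (m ^ k + 1) ∧
      ∀ y ∈ graph g, dist y x₀ ≤ R → ∃ q ∈ A, dist y q ≤ 4 / (m : ℝ) ^ k * R := by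
  classical
  obtain ⟨p, hp⟩ := hx₀
  have hmpos : (0 : ℝ) < m := lt_of_le_of_lt (sq_nonneg _) hm
  have hm1 : (1 : ℝ) ≤ m := by
    have : 0 < m := by exact_mod_cast hmpos
    exact_mod_cast this
  set v := g p with hv
  set a : ℝ := max 0 (min (p - R) (1 - 2 * R)) with ha
  have ha0 : 0 ≤ a := le_max_left _ _
  have ha1 : a + 2 * R ≤ 1 := by
    have : a ≤ 1 - 2 * R := by
      rw [ha]
      exact max_le (by linarith) (min_le_right _ _)
    linarith
  have hwin : ∀ z : ℝ, 0 ≤ z → z ≤ 1 → |z - p| ≤ R → z ∈ Icc a (a + 2 * R) := by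
    intro z hz0 hz1 hzp
    rw [abs_le] at hzp
    constructor
    · rw [ha]
      exact max_le hz0 ((min_le_left _ _).trans (by linarith [hzp.1]))
    · by_cases h : (p : ℝ) - R ≤ 1 - 2 * R
      · have : (p : ℝ) - R ≤ a := by
          rw [ha, min_eq_left h]
          exact le_max_right _ _
        linarith [hzp.2]
      · push Not at h
        have : 1 - 2 * R ≤ a := by
          rw [ha, min_eq_right h.le]
          exact le_max_right _ _
        linarith
  obtain ⟨A₀, hA₀c, hA₀⟩ := cover_window hG hM hc hm R v k a (2 * R) ha0 (by positivity) ha1 (by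
    intro i hi
    have h1 : (m : ℝ) ^ i ≤ (m : ℝ) ^ k := pow_le_pow_right₀ hm1 hi.le
    have hmi : (0 : ℝ) < (m : ℝ) ^ i := by positivity
    have h2 : R * (8 * (m : ℝ) ^ k) ≤ c ^ 2 := by
      rwa [le_div_iff₀ (by positivity)] at hR2
    have h3 : (4 * R) ^ 2 ≤ c ^ 2 * (2 * R / (m : ℝ) ^ i) := by
      rw [← mul_div_assoc, le_div_iff₀ hmi]
      have : R * (8 * (m : ℝ) ^ i) ≤ c ^ 2 := by
        refine le_trans ?_ h2
        gcongr
      nlinarith
    have h4 : 4 * R = √((4 * R) ^ 2) := (Real.sqrt_sq (by positivity)).symm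
    rw [h4]
    refine (Real.sqrt_le_sqrt h3).trans ?_
    rw [Real.sqrt_mul (sq_nonneg c), Real.sqrt_sq hc.le])
  set D : ℝ := 2 * R / (m : ℝ) ^ k with hD
  have hDpos : 0 < D := by positivity
  set cell : ℝ × ℕ → unitInterval → Prop := fun b z =>
    (b.1 ≤ z ∧ (z : ℝ) ≤ b.1 + D) ∧ (v - R + b.2 * D ≤ g z ∧ g z ≤ v - R + b.2 * D + D) with hcell
  set rep : ℝ × ℕ → Plane := fun b =>
    if h : ∃ z, cell b z then !₂[(h.choose : ℝ), g h.choose] else x₀ with hrep
  refine ⟨(A₀ ×ˢ Finset.range (m ^ k + 1)).image rep, ?_, ?_, ?_⟩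
  · intro q hq
    rw [Finset.coe_image] at hq
    obtain ⟨b, _, rfl⟩ := hq
    simp only [hrep]
    split_ifs with h
    · exact ⟨h.choose, rfl⟩
    · exact ⟨p, hp⟩
  · refine Finset.card_image_le.trans ?_
    rw [Finset.card_product, Finset.card_range]
    exact Nat.mul_le_mul_right _ hA₀c
  · rintro y ⟨z, rfl⟩ hyz
    have h0 := abs_coord_le (!₂[(z : ℝ), g z]) x₀ 0
    have h1 := abs_coord_le (!₂[(z : ℝ), g z]) x₀ 1
    rw [hp] at h0 h1
    simp only [Matrix.cons_val_zero, Matrix.cons_val_one] at h0 h1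
    rw [hp] at hyz
    have hzp : |(z : ℝ) - p| ≤ R := h0.trans hyz
    have hgz : |g z - v| ≤ R := h1.trans hyz
    obtain ⟨b, hb, hb1, hb2⟩ := hA₀ z (hwin z z.2.1 z.2.2 hzp) (by rwa [IccExtend_val])
    rw [abs_le] at hgz
    set i : ℕ := ⌊(g z - (v - R)) / D⌋₊ with hi
    have hnum : 0 ≤ (g z - (v - R)) / D := div_nonneg (by linarith [hgz.1]) hDpos.le
    have hi1 : (i : ℝ) * D ≤ g z - (v - R) := by
      rw [← le_div_iff₀ hDpos]
      exact Nat.floor_le hnum
    have hi2 : g z - (v - R) ≤ (i : ℝ) * D + D := by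
      have := Nat.lt_floor_add_one ((g z - (v - R)) / D)
      rw [← hi, div_lt_iff₀ hDpos] at this
      linarith
    have hi3 : i < m ^ k + 1 := by
      have h5 : (i : ℝ) ≤ (m : ℝ) ^ k := by
        have h6 : (i : ℝ) * D ≤ 2 * R := by linarith [hgz.2]
        rw [← le_div_iff₀ hDpos] at h6
        have h7 : 2 * R / D = (m : ℝ) ^ k := by
          rw [hD]
          field_simp
        rwa [h7] at h6
      have h8 : i ≤ m ^ k := by exact_mod_cast h5
      omega
    have hcz : cell (b, i) z := ⟨⟨hb1, hb2⟩, by constructor <;> simp only <;> linarith⟩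
    have hex : ∃ z, cell (b, i) z := ⟨z, hcz⟩
    refine ⟨rep (b, i), Finset.mem_image.2 ⟨(b, i), Finset.mem_product.2 ⟨hb,
      Finset.mem_range.2 hi3⟩, rfl⟩, ?_⟩
    have hrepb : rep (b, i) = !₂[(hex.choose : ℝ), g hex.choose] := by
      simp only [hrep]
      rw [dif_pos hex]
    obtain ⟨⟨c1, c2⟩, c3, c4⟩ := hex.choose_spec
    obtain ⟨⟨d1, d2⟩, d3, d4⟩ := hcz
    rw [hrepb]
    refine (plane_dist_le _ _).trans ?_
    simp only [Matrix.cons_val_zero, Matrix.cons_val_one]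
    simp only at c1 c2 c3 c4 d1 d2 d3 d4
    have e1 : |(z : ℝ) - hex.choose| ≤ D := by
      rw [abs_le]
      constructor <;> linarith
    have e2 : |g z - g hex.choose| ≤ D := by
      rw [abs_le]
      constructor <;> linarith
    have e3 : 4 / (m : ℝ) ^ k * R = D + D := by
      rw [hD]
      ring
    rw [e3]
    exact add_le_add e1 e2

/-- All functions with given Hölder and oscillation constants have graphs of Assouad dimension at
most some `s < 2` depending only on these constants. -/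
theorem graph_bound {M c : ℝ} (hM : 0 < M) (hc : 0 < c) :
    ∃ s : ℝ, 0 ≤ s ∧ s < 2 ∧ ∀ g : unitInterval → ℝ, Osc (IccExtend zero_le_one g) M c →
      ∃ C : ℝ, 0 < C ∧ ∀ r R : ℝ, 0 < r → r < R → ∀ x ∈ graph g,
        PackLE r (ball x R ∩ graph g) (C * (R / r) ^ s) := by
  obtain ⟨m₀, hm₀⟩ := exists_nat_gt ((4 * M / c) ^ 2)
  set m := m₀ + 2 with hmdef
  have hm : (4 * M / c) ^ 2 < (m : ℝ) := by
    rw [hmdef]
    push_cast
    linarith
  have hmpos : (0 : ℝ) < m := by rw [hmdef]; positivity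
  have hm2 : 2 ≤ m := by omega
  have hm1' : ((m - 1 : ℕ) : ℝ) = m - 1 := by
    rw [Nat.cast_sub (by omega)]
    simp
  have hm2' : (2 : ℝ) ≤ m := by exact_mod_cast hm2
  have hq : ((m - 1 : ℕ) : ℝ) / m < 1 := by
    rw [hm1', div_lt_one hmpos]
    linarith
  obtain ⟨k, hk⟩ := exists_pow_lt_of_lt_one (by norm_num : (0 : ℝ) < 1 / 32) hq
  rw [div_pow] at hk
  have hmk : (0 : ℝ) < (m : ℝ) ^ k := by positivity
  have hk1 : 32 * ((m - 1 : ℕ) : ℝ) ^ k < (m : ℝ) ^ k := by
    rw [div_lt_iff₀ hmk] at hk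
    linarith
  have hbase : (1 : ℝ) ≤ ((m - 1 : ℕ) : ℝ) ^ k := by
    refine one_le_pow₀ ?_
    rw [hm1']
    linarith
  have hmk32 : (32 : ℝ) < (m : ℝ) ^ k := by linarith
  set n : ℕ := (m - 1) ^ k * (m ^ k + 1) with hn
  have hn1 : 1 ≤ n := by
    rw [hn]
    have h1 : 1 ≤ (m - 1) ^ k := Nat.one_le_pow _ _ (by omega)
    nlinarith [Nat.zero_le (m ^ k)]
  set l : ℝ := 4 / (m : ℝ) ^ k with hl
  have hl0 : 0 < l := by positivity
  have hl1 : l < 1 := by
    rw [hl, div_lt_one hmk]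
    linarith
  set R₀ : ℝ := min (1 / 2) (c ^ 2 / (8 * (m : ℝ) ^ k)) with hR₀
  have hR₀pos : 0 < R₀ := lt_min (by norm_num) (by positivity)
  refine ⟨Real.log n / Real.log (1 / l), ?_, ?_, ?_⟩
  · exact div_nonneg (Real.log_natCast_nonneg n)
      (Real.log_nonneg (by rw [le_div_iff₀ hl0]; linarith))
  · have hlog : 0 < Real.log (1 / l) := Real.log_pos (by rw [lt_div_iff₀ hl0]; linarith)
    rw [div_lt_iff₀ hlog]
    have h1 : 2 * Real.log (1 / l) = Real.log ((1 / l) ^ 2) := by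
      rw [Real.log_pow]
      norm_num
    rw [h1]
    refine Real.log_lt_log (by exact_mod_cast hn1) ?_
    have h2 : (1 / l) ^ 2 = (m : ℝ) ^ k * (m : ℝ) ^ k / 16 := by
      rw [hl]
      field_simp
      norm_num
    have h3 : (n : ℝ) = ((m - 1 : ℕ) : ℝ) ^ k * ((m : ℝ) ^ k + 1) := by
      rw [hn]
      push_cast
      ring
    rw [h2, h3, lt_div_iff₀ (by norm_num : (0 : ℝ) < 16)]
    nlinarith
  · intro g hG
    refine pack_bound (graph g) n l R₀ hn1 hl0 hl1 hR₀pos
      (totallyBounded_graph (continuous_of_osc hG)) ?_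
    intro x hx R hR hRR
    exact one_step hM hc hm hG x hx R hR (hRR.trans (min_le_left _ _))
      (hRR.trans (min_le_right _ _))

lemma sInf_le_of_mem' {S : Set ℝ} {s : ℝ} (hs : 0 ≤ s) (h : s ∈ S) : sInf S ≤ s := by
  by_cases hb : BddBelow S
  · exact csInf_le hb h
  · rw [Real.sInf_of_not_bddBelow hb]
    exact hs

lemma assouadDim_le {F : Set Plane} {s : ℝ} (hs : 0 ≤ s)
    (h : ∃ C : ℝ, 0 < C ∧ ∀ r R : ℝ, 0 < r → r < R → ∀ x ∈ F,
      PackLE r (ball x R ∩ F) (C * (R / r) ^ s)) : assouadDim F ≤ s :=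
  sInf_le_of_mem' hs h

lemma assouadSpec_le {F : Set Plane} {s θ : ℝ} (hs : 0 ≤ s) (hθ1 : θ < 1)
    (h : ∃ C : ℝ, 0 < C ∧ ∀ r R : ℝ, 0 < r → r < R → ∀ x ∈ F,
      PackLE r (ball x R ∩ F) (C * (R / r) ^ s)) : assouadSpec θ F ≤ s := by
  refine sInf_le_of_mem' hs ?_
  obtain ⟨C, hC, h⟩ := h
  refine ⟨C, hC, fun r hr hr1 x hx => ?_⟩
  have h1 : r < r ^ θ := by
    calc r = r ^ (1 : ℝ) := (Real.rpow_one r).symm
      _ < r ^ θ := Real.rpow_lt_rpow_of_exponent_gt hr hr1 hθ1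
  have h2 := h r (r ^ θ) hr h1 x hx
  have h3 : r ^ θ / r = r ^ (θ - 1) := by
    rw [Real.rpow_sub hr, Real.rpow_one]
  rwa [h3] at h2

end graphs

/-! ### A uniformly oscillating function -/

section takagi

/-- The distance to the nearest integer. -/
noncomputable def tri (t : ℝ) : ℝ := |t - round t|

lemma tri_nonneg (t : ℝ) : 0 ≤ tri t := abs_nonneg _

lemma tri_le (t : ℝ) : tri t ≤ 1 / 2 := abs_sub_round t

lemma tri_le_add (x y : ℝ) : tri x ≤ |x - y| + tri y := by
  calc tri x ≤ |x - (round y : ℝ)| := round_le x (round y)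
    _ = |(x - y) + (y - round y)| := by congr 1; ring
    _ ≤ _ := abs_add_le _ _

lemma tri_lipschitz (x y : ℝ) : |tri x - tri y| ≤ |x - y| := by
  rw [abs_le]
  have h1 := tri_le_add x y
  have h2 := tri_le_add y x
  rw [abs_sub_comm y x] at h2
  constructor <;> linarith

lemma tri_int (j : ℤ) : tri j = 0 := by simp [tri]

lemma tri_half (j : ℤ) : tri (j + 1 / 2) = 1 / 2 := by
  have h : round ((j : ℝ) + 1 / 2) = j + 1 := by
    rw [round_eq, add_assoc]
    norm_num
  rw [tri, h]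
  push_cast
  rw [show ((j : ℝ) + 1 / 2 - (j + 1)) = -(1 / 2) by ring, abs_neg]
  norm_num

/-- The function `∑ 4^(-k) tri (16^k x)`. -/
noncomputable def osc (x : ℝ) : ℝ := ∑' k : ℕ, (1 / 4 : ℝ) ^ k * tri (16 ^ k * x)

lemma summable_osc (x : ℝ) : Summable fun k : ℕ => (1 / 4 : ℝ) ^ k * tri (16 ^ k * x) := by
  refine Summable.of_nonneg_of_le (fun k => mul_nonneg (by positivity) (tri_nonneg _))
    (fun k => ?_) ((summable_geometric_of_lt_one (r := (1 / 4 : ℝ)) (by norm_num)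
      (by norm_num)).mul_right (1 / 2))
  exact mul_le_mul_of_nonneg_left (tri_le _) (by positivity)

lemma osc_eq (x : ℝ) : osc x = tri x + osc (16 * x) / 4 := by
  rw [osc, (summable_osc x).tsum_eq_zero_add]
  simp only [pow_zero, one_mul]
  congr 1
  rw [osc, ← tsum_div_const]
  refine tsum_congr fun k => ?_
  rw [show (16 : ℝ) ^ (k + 1) * x = 16 ^ k * (16 * x) by ring]
  ring

lemma osc_nonneg (x : ℝ) : 0 ≤ osc x :=
  tsum_nonneg fun k => mul_nonneg (by positivity) (tri_nonneg _)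

lemma osc_le (x : ℝ) : osc x ≤ 2 / 3 := by
  have hg := (summable_geometric_of_lt_one (r := (1 / 4 : ℝ)) (by norm_num)
      (by norm_num)).mul_right (1 / 2)
  calc osc x ≤ ∑' k : ℕ, (1 / 4 : ℝ) ^ k * (1 / 2) :=
        (summable_osc x).tsum_le_tsum
          (fun k => mul_le_mul_of_nonneg_left (tri_le _) (by positivity)) hg
    _ = 2 / 3 := by
        rw [tsum_mul_right, tsum_geometric_of_lt_one (by norm_num) (by norm_num)]
        norm_num

lemma osc_int (j : ℤ) : osc j = 0 := by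
  rw [osc]
  have : ∀ k : ℕ, (1 / 4 : ℝ) ^ k * tri (16 ^ k * j) = 0 := by
    intro k
    have h : (16 : ℝ) ^ k * j = ((16 ^ k * j : ℤ) : ℝ) := by push_cast; ring
    rw [h, tri_int, mul_zero]
  rw [tsum_congr this, tsum_zero]

lemma osc_holder (n : ℕ) : ∀ x y : ℝ, (1 / 16 : ℝ) ^ (n + 1) ≤ |x - y| → |x - y| ≤ 1 →
    |osc x - osc y| ≤ 4 * √|x - y| - |x - y| / 3 := by
  have base : ∀ x y : ℝ, (1 / 16 : ℝ) ≤ |x - y| → |x - y| ≤ 1 →
      |osc x - osc y| ≤ 4 * √|x - y| - |x - y| / 3 := by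
    intro x y h1 h2
    have h3 : |osc x - osc y| ≤ 2 / 3 := by
      rw [abs_le]
      constructor <;> linarith [osc_nonneg x, osc_nonneg y, osc_le x, osc_le y]
    have h4 : (1 / 4 : ℝ) ≤ √|x - y| := by
      refine Real.le_sqrt_of_sq_le ?_
      norm_num
      linarith
    linarith
  induction n with
  | zero =>
    intro x y h1 h2
    exact base x y (by simpa using h1) h2
  | succ n ih =>
    intro x y h1 h2
    by_cases h : (1 / 16 : ℝ) ≤ |x - y|
    · exact base x y h h2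
    push Not at h
    have h16 : |16 * x - 16 * y| = 16 * |x - y| := by
      rw [← mul_sub, abs_mul]
      norm_num
    have h3 := ih (16 * x) (16 * y) (by
      rw [h16]
      have : (1 / 16 : ℝ) ^ (n + 1 + 1) = (1 / 16) ^ (n + 1) * (1 / 16) := pow_succ _ _
      rw [this] at h1
      linarith) (by rw [h16]; linarith)
    have hs : √(16 * |x - y|) = 4 * √|x - y| := by
      rw [Real.sqrt_mul (by norm_num)]
      congr 1
      rw [show (16 : ℝ) = 4 ^ 2 by norm_num, Real.sqrt_sq (by norm_num)]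
    rw [h16, hs] at h3
    have h4 : osc x - osc y = (tri x - tri y) + (osc (16 * x) - osc (16 * y)) / 4 := by
      rw [osc_eq x, osc_eq y]
      ring
    have h5 := tri_lipschitz x y
    calc |osc x - osc y| ≤ |tri x - tri y| + |(osc (16 * x) - osc (16 * y)) / 4| := by
          rw [h4]
          exact abs_add_le _ _
      _ = |tri x - tri y| + |osc (16 * x) - osc (16 * y)| / 4 := by
          rw [abs_div]
          norm_num
      _ ≤ _ := by linarith

lemma osc_up (x y : ℝ) (h : |x - y| ≤ 1) : |osc x - osc y| ≤ 4 * √|x - y| := by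
  by_cases h0 : |x - y| = 0
  · have : x = y := by
      rw [abs_eq_zero, sub_eq_zero] at h0
      exact h0
    subst this
    simp
  · have hpos : 0 < |x - y| := lt_of_le_of_ne (abs_nonneg _) (Ne.symm h0)
    obtain ⟨n, hn⟩ := exists_pow_lt_of_lt_one hpos (by norm_num : (1 / 16 : ℝ) < 1)
    have h1 : (1 / 16 : ℝ) ^ (n + 1) ≤ |x - y| := by
      refine le_trans ?_ hn.le
      rw [pow_succ]
      have : 0 < (1 / 16 : ℝ) ^ n := by positivity
      linarith
    have := osc_holder n x y h1 h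
    linarith

lemma osc_step (n : ℕ) : ∀ j : ℤ, (1 / 4 : ℝ) ^ n / 3 + (1 / 16 : ℝ) ^ n / 6 ≤
    osc ((j + 1 / 2) / 16 ^ n) - osc (j / 16 ^ n) := by
  induction n with
  | zero =>
    intro j
    simp only [pow_zero, div_one]
    rw [osc_int, osc_eq, tri_half]
    have h : (16 : ℝ) * (j + 1 / 2) = ((16 * j + 8 : ℤ) : ℝ) := by push_cast; ring
    rw [h, osc_int]
    norm_num
  | succ n ih =>
    intro j
    have h1 := ih j
    rw [osc_eq ((j + 1 / 2) / 16 ^ (n + 1)), osc_eq (j / 16 ^ (n + 1))]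
    have e1 : 16 * (((j : ℝ) + 1 / 2) / 16 ^ (n + 1)) = (j + 1 / 2) / 16 ^ n := by
      field_simp
      ring
    have e2 : 16 * ((j : ℝ) / 16 ^ (n + 1)) = j / 16 ^ n := by
      field_simp
      ring
    rw [e1, e2]
    have h2 := tri_lipschitz (((j : ℝ) + 1 / 2) / 16 ^ (n + 1)) (j / 16 ^ (n + 1))
    have e3 : ((j : ℝ) + 1 / 2) / 16 ^ (n + 1) - j / 16 ^ (n + 1) = (1 / 16) ^ (n + 1) / 2 := by
      rw [one_div_pow]
      ring
    rw [e3, abs_of_nonneg (by positivity : (0 : ℝ) ≤ (1 / 16) ^ (n + 1) / 2), abs_le] at h2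
    have e4 : (1 / 16 : ℝ) ^ (n + 1) = (1 / 16) ^ n / 16 := by rw [pow_succ]; ring
    have e5 : (1 / 4 : ℝ) ^ (n + 1) = (1 / 4) ^ n / 4 := by rw [pow_succ]; ring
    rw [e4] at h2 ⊢
    rw [e5]
    linarith [h2.1]

lemma osc_low (a ρ : ℝ) (ha : 0 ≤ a) (hρ : 0 < ρ) (haρ : a + ρ ≤ 1) :
    ∃ x ∈ Icc a (a + ρ), ∃ y ∈ Icc a (a + ρ), 1 / 18 * √ρ ≤ |osc x - osc y| := by
  have hex : ∃ n : ℕ, 2 * (1 / 16 : ℝ) ^ n ≤ ρ := by
    obtain ⟨n, hn⟩ := exists_pow_lt_of_lt_one (by positivity : 0 < ρ / 2)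
      (by norm_num : (1 / 16 : ℝ) < 1)
    exact ⟨n, by linarith⟩
  have hspec := Nat.find_spec hex
  set n := Nat.find hex with hn
  have hn0 : n ≠ 0 := by
    intro h0
    rw [h0] at hspec
    norm_num at hspec
    linarith
  obtain ⟨k, hk⟩ := Nat.exists_eq_succ_of_ne_zero hn0
  have hk' := Nat.find_min hex (m := k) (by omega)
  push Not at hk'
  have hpow : (1 / 16 : ℝ) ^ k = 16 * (1 / 16) ^ n := by
    rw [hk, Nat.succ_eq_add_one, pow_succ]
    ring
  rw [hpow] at hk'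
  have h16 : (0 : ℝ) < 16 ^ n := by positivity
  have hinv : (1 / 16 : ℝ) ^ n = 1 / 16 ^ n := by rw [one_div, inv_pow, one_div]
  set j : ℤ := ⌈a * 16 ^ n⌉ with hj
  have hj1 : a * 16 ^ n ≤ j := Int.le_ceil _
  have hj2 : (j : ℝ) < a * 16 ^ n + 1 := Int.ceil_lt_add_one _
  have hx1 : a ≤ (j : ℝ) / 16 ^ n := by rwa [le_div_iff₀ h16]
  have hx2 : (j : ℝ) / 16 ^ n ≤ a + (1 / 16) ^ n := by
    rw [hinv, div_le_iff₀ h16, add_mul, one_div, inv_mul_cancel₀ h16.ne']
    exact hj2.le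
  have hy : ((j : ℝ) + 1 / 2) / 16 ^ n = (j : ℝ) / 16 ^ n + (1 / 16) ^ n / 2 := by
    rw [hinv]
    ring
  have hp : (0 : ℝ) < (1 / 16) ^ n := by positivity
  refine ⟨((j : ℝ) + 1 / 2) / 16 ^ n, ⟨by rw [hy]; linarith, by rw [hy]; linarith⟩,
    (j : ℝ) / 16 ^ n, ⟨hx1, by linarith⟩, ?_⟩
  have hs := osc_step n j
  have h4 : √ρ ≤ 6 * (1 / 4) ^ n := by
    rw [Real.sqrt_le_left (by positivity)]
    have : (6 * (1 / 4 : ℝ) ^ n) ^ 2 = 36 * (1 / 16) ^ n := by
      rw [mul_pow, ← pow_mul, mul_comm n 2, pow_mul]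
      norm_num
    rw [this]
    linarith
  refine le_trans ?_ (le_abs_self _)
  linarith

/-- A function on `[0,1]` whose increments differ from those of `osc` by at most `√ / 36`. -/
lemma osc_of_near (g : unitInterval → ℝ)
    (h : ∀ x y : unitInterval, |(g x - osc x) - (g y - osc y)| ≤ 1 / 36 * √|(x : ℝ) - y|) :
    Osc (IccExtend zero_le_one g) 5 (1 / 36) := by
  have hext : ∀ x (hx : x ∈ Icc (0 : ℝ) 1), IccExtend zero_le_one g x = g ⟨x, hx⟩ :=
    fun x hx => IccExtend_of_mem _ _ hx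
  have hd : ∀ x ∈ Icc (0 : ℝ) 1, ∀ y ∈ Icc (0 : ℝ) 1, |x - y| ≤ 1 := by
    intro x hx y hy
    rw [abs_le]
    constructor <;> linarith [hx.1, hx.2, hy.1, hy.2]
  constructor
  · intro x hx y hy
    rw [hext x hx, hext y hy]
    have h1 := h ⟨x, hx⟩ ⟨y, hy⟩
    simp only at h1
    have h2 := osc_up x y (hd x hx y hy)
    have h3 : g ⟨x, hx⟩ - g ⟨y, hy⟩ =
        ((g ⟨x, hx⟩ - osc x) - (g ⟨y, hy⟩ - osc y)) + (osc x - osc y) := by ring
    have h4 := abs_add_le ((g ⟨x, hx⟩ - osc x) - (g ⟨y, hy⟩ - osc y)) (osc x - osc y)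
    rw [← h3] at h4
    have h5 := Real.sqrt_nonneg |x - y|
    linarith
  · intro a ρ ha hρ haρ
    obtain ⟨x, hx, y, hy, hxy⟩ := osc_low a ρ ha hρ haρ
    have hx' : x ∈ Icc (0 : ℝ) 1 := ⟨ha.trans hx.1, hx.2.trans haρ⟩
    have hy' : y ∈ Icc (0 : ℝ) 1 := ⟨ha.trans hy.1, hy.2.trans haρ⟩
    refine ⟨x, hx, y, hy, ?_⟩
    rw [hext x hx', hext y hy']
    have h1 := h ⟨x, hx'⟩ ⟨y, hy'⟩
    simp only at h1
    have h2 : √|x - y| ≤ √ρ := by
      refine Real.sqrt_le_sqrt ?_
      rw [abs_le]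
      constructor <;> linarith [hx.1, hx.2, hy.1, hy.2]
    have h3 : osc x - osc y = (g ⟨x, hx'⟩ - g ⟨y, hy'⟩) -
        ((g ⟨x, hx'⟩ - osc x) - (g ⟨y, hy'⟩ - osc y)) := by ring
    have h4 := abs_sub (g ⟨x, hx'⟩ - g ⟨y, hy'⟩) ((g ⟨x, hx'⟩ - osc x) - (g ⟨y, hy'⟩ - osc y))
    rw [← h3] at h4
    linarith

end takagi

/-! ### The spaces `C^ω[0,1]` -/

/-- A modulus of continuity (with finite values). -/
structure Modulus where
  toFun : ℝ → ℝ
  mono : MonotoneOn toFun (Icc 0 1)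
  pos : ∀ t, 0 < t → t ≤ 1 → 0 < toFun t
  zero : toFun 0 = 0
  lim : Tendsto toFun (𝓝[>] 0) (𝓝 0)

/-- `‖u‖_∞`. -/
noncomputable def supNorm (u : unitInterval → ℝ) : ℝ := ⨆ x, |u x|

/-- `[u]_ω`, the supremum of `|u x - u y| / ω |x - y|` (the pairs with `x = y` give `0`). -/
noncomputable def semi (ω : Modulus) (u : unitInterval → ℝ) : ℝ :=
  ⨆ p : unitInterval × unitInterval, |u p.1 - u p.2| / ω.toFun |(p.1 : ℝ) - p.2|

/-- `|u x - u y| ≤ C ω(|x - y|)` for all `x, y`, i.e. `[u]_ω ≤ C`. -/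
def SemiLE (ω : Modulus) (u : unitInterval → ℝ) (C : ℝ) : Prop :=
  ∀ x y : unitInterval, |u x - u y| ≤ C * ω.toFun |(x : ℝ) - y|

/-- The space `C^ω[0,1]`. -/
@[ext] structure Space (ω : Modulus) where
  toFun : unitInterval → ℝ
  bound : ∃ C, SemiLE ω toFun C

section space

variable {ω : Modulus}

lemma dist_mem (x y : unitInterval) : |(x : ℝ) - y| ∈ Icc (0 : ℝ) 1 := by
  refine ⟨abs_nonneg _, ?_⟩
  rw [abs_le]
  constructor <;> linarith [x.2.1, x.2.2, y.2.1, y.2.2]

lemma omega_nonneg (x y : unitInterval) : 0 ≤ ω.toFun |(x : ℝ) - y| := by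
  rcases (abs_nonneg ((x : ℝ) - y)).eq_or_lt with h | h
  · rw [← h, ω.zero]
  · exact (ω.pos _ h (dist_mem x y).2).le

lemma omega_le_one (x y : unitInterval) : ω.toFun |(x : ℝ) - y| ≤ ω.toFun 1 :=
  ω.mono (dist_mem x y) ⟨zero_le_one, le_rfl⟩ (dist_mem x y).2

lemma SemiLE.bounded {u : unitInterval → ℝ} {C : ℝ} (h : SemiLE ω u C) :
    BddAbove (Set.range fun x => |u x|) := by
  refine ⟨|u 0| + |C| * ω.toFun 1, ?_⟩
  rintro _ ⟨x, rfl⟩
  have h1 := h x 0
  have h2 : C * ω.toFun |(x : ℝ) - (0 : unitInterval)| ≤ |C| * ω.toFun 1 :=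
    (mul_le_mul_of_nonneg_right (le_abs_self C) (omega_nonneg x 0)).trans
      (mul_le_mul_of_nonneg_left (omega_le_one x 0) (abs_nonneg C))
  have h3 : |u x| ≤ |u x - u 0| + |u 0| := by
    calc |u x| = |(u x - u 0) + u 0| := by congr 1; ring
      _ ≤ _ := abs_add_le _ _
  simp only
  linarith

lemma SemiLE.bddQuot {u : unitInterval → ℝ} {C : ℝ} (h : SemiLE ω u C) :
    BddAbove (Set.range fun p : unitInterval × unitInterval =>
      |u p.1 - u p.2| / ω.toFun |(p.1 : ℝ) - p.2|) := by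
  refine ⟨|C|, ?_⟩
  rintro _ ⟨p, rfl⟩
  simp only
  rcases (omega_nonneg (ω := ω) p.1 p.2).eq_or_lt with h0 | h0
  · rw [← h0, div_zero]
    exact abs_nonneg _
  · rw [div_le_iff₀ h0]
    exact (h p.1 p.2).trans (mul_le_mul_of_nonneg_right (le_abs_self C) h0.le)

lemma le_supNorm {u : unitInterval → ℝ} {C : ℝ} (h : SemiLE ω u C) (x : unitInterval) :
    |u x| ≤ supNorm u := le_ciSup h.bounded x

lemma supNorm_le {u : unitInterval → ℝ} {b : ℝ} (h : ∀ x, |u x| ≤ b) : supNorm u ≤ b :=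
  ciSup_le h

lemma supNorm_nonneg (u : unitInterval → ℝ) : 0 ≤ supNorm u :=
  Real.iSup_nonneg fun _ => abs_nonneg _

lemma semi_nonneg (u : unitInterval → ℝ) : 0 ≤ semi ω u :=
  Real.iSup_nonneg fun p => div_nonneg (abs_nonneg _) (omega_nonneg p.1 p.2)

lemma semiLE_semi {u : unitInterval → ℝ} {C : ℝ} (h : SemiLE ω u C) :
    SemiLE ω u (semi ω u) := by
  intro x y
  rcases (abs_nonneg ((x : ℝ) - y)).eq_or_lt with h0 | h0
  · have hxy : x = y := by
      rw [eq_comm, abs_eq_zero, sub_eq_zero] at h0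
      exact Subtype.ext h0
    subst hxy
    simp [ω.zero]
  · have h1 := ω.pos _ h0 (dist_mem x y).2
    rw [← div_le_iff₀ h1]
    exact le_ciSup h.bddQuot (x, y)

lemma semi_le {u : unitInterval → ℝ} {C : ℝ} (hC : 0 ≤ C) (h : SemiLE ω u C) :
    semi ω u ≤ C := by
  refine ciSup_le fun p => ?_
  rcases (omega_nonneg (ω := ω) p.1 p.2).eq_or_lt with h0 | h0
  · rw [← h0, div_zero]
    exact hC
  · rw [div_le_iff₀ h0]
    exact h p.1 p.2

lemma SemiLE.add {u v : unitInterval → ℝ} {C D : ℝ} (h : SemiLE ω u C) (h' : SemiLE ω v D) :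
    SemiLE ω (fun x => u x + v x) (C + D) := by
  intro x y
  have h1 := h x y
  have h2 := h' x y
  have h3 := abs_add_le (u x - u y) (v x - v y)
  have h4 : u x + v x - (u y + v y) = (u x - u y) + (v x - v y) := by ring
  simp only
  rw [h4, add_mul]
  linarith

lemma SemiLE.sub {u v : unitInterval → ℝ} {C D : ℝ} (h : SemiLE ω u C) (h' : SemiLE ω v D) :
    SemiLE ω (fun x => u x - v x) (C + D) := by
  intro x y
  have h1 := h x y
  have h2 := h' x y
  have h3 := abs_sub (u x - u y) (v x - v y)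
  have h4 : u x - v x - (u y - v y) = (u x - u y) - (v x - v y) := by ring
  simp only
  rw [h4, add_mul]
  linarith

/-- The metric of the norm `‖f‖_ω = ‖f‖_∞ + [f]_ω`. -/
noncomputable instance : MetricSpace (Space ω) where
  dist f g := supNorm (fun x => f.toFun x - g.toFun x) + semi ω (fun x => f.toFun x - g.toFun x)
  dist_self f := by
    have h : (fun x => f.toFun x - f.toFun x) = fun _ : unitInterval => (0 : ℝ) := by
      funext x
      ring
    have h1 : supNorm (fun _ : unitInterval => (0 : ℝ)) = 0 :=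
      le_antisymm (supNorm_le fun x => by simp) (supNorm_nonneg _)
    have h2 : semi ω (fun _ : unitInterval => (0 : ℝ)) = 0 :=
      le_antisymm (semi_le le_rfl fun x y => by simp) (semi_nonneg _)
    rw [h, h1, h2, add_zero]
  dist_comm f g := by
    have h1 : supNorm (fun x => f.toFun x - g.toFun x) =
        supNorm (fun x => g.toFun x - f.toFun x) := by
      unfold supNorm
      exact congrArg _ (funext fun x => abs_sub_comm _ _)
    have h2 : semi ω (fun x => f.toFun x - g.toFun x) =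
        semi ω (fun x => g.toFun x - f.toFun x) := by
      unfold semi
      refine congrArg _ (funext fun p => ?_)
      congr 1
      rw [← abs_neg]
      congr 1
      ring
    rw [h1, h2]
  dist_triangle f g h := by
    obtain ⟨C, hC⟩ := f.bound
    obtain ⟨D, hD⟩ := g.bound
    obtain ⟨E, hE⟩ := h.bound
    have hfg := hC.sub hD
    have hgh := hD.sub hE
    have h1 : supNorm (fun x => f.toFun x - h.toFun x) ≤
        supNorm (fun x => f.toFun x - g.toFun x) + supNorm (fun x => g.toFun x - h.toFun x) := by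
      refine supNorm_le fun x => ?_
      have h3 : f.toFun x - h.toFun x = (f.toFun x - g.toFun x) + (g.toFun x - h.toFun x) := by
        ring
      rw [h3]
      exact (abs_add_le _ _).trans (add_le_add (le_supNorm hfg x) (le_supNorm hgh x))
    have h2 : semi ω (fun x => f.toFun x - h.toFun x) ≤
        semi ω (fun x => f.toFun x - g.toFun x) + semi ω (fun x => g.toFun x - h.toFun x) := by
      refine semi_le (add_nonneg (semi_nonneg _) (semi_nonneg _)) ?_
      have h3 := (semiLE_semi hfg).add (semiLE_semi hgh)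
      have h4 : (fun x => f.toFun x - h.toFun x) =
          fun x => (f.toFun x - g.toFun x) + (g.toFun x - h.toFun x) := by
        funext x
        ring
      rw [h4]
      exact h3
    linarith
  eq_of_dist_eq_zero := by
    intro f g h
    obtain ⟨C, hC⟩ := f.bound
    obtain ⟨D, hD⟩ := g.bound
    have h1 := supNorm_nonneg (fun x => f.toFun x - g.toFun x)
    have h2 := semi_nonneg (ω := ω) (fun x => f.toFun x - g.toFun x)
    have h3 : supNorm (fun x => f.toFun x - g.toFun x) = 0 := by linarith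
    refine Space.ext (funext fun x => ?_)
    have h4 := le_supNorm (hC.sub hD) x
    rw [h3] at h4
    have h5 := abs_nonneg (f.toFun x - g.toFun x)
    have h6 : |f.toFun x - g.toFun x| = 0 := le_antisymm h4 h5
    rwa [abs_eq_zero, sub_eq_zero] at h6

lemma dist_def (f g : Space ω) : dist f g =
    supNorm (fun x => f.toFun x - g.toFun x) + semi ω (fun x => f.toFun x - g.toFun x) := rfl

lemma sup_le_dist (f g : Space ω) (x : unitInterval) : |f.toFun x - g.toFun x| ≤ dist f g := by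
  obtain ⟨C, hC⟩ := f.bound
  obtain ⟨D, hD⟩ := g.bound
  have h1 := le_supNorm (hC.sub hD) x
  have h2 := semi_nonneg (ω := ω) (fun x => f.toFun x - g.toFun x)
  rw [dist_def]
  linarith

lemma semiLE_dist (f g : Space ω) : SemiLE ω (fun x => f.toFun x - g.toFun x) (dist f g) := by
  obtain ⟨C, hC⟩ := f.bound
  obtain ⟨D, hD⟩ := g.bound
  intro x y
  refine (semiLE_semi (hC.sub hD) x y).trans ?_
  refine mul_le_mul_of_nonneg_right ?_ (omega_nonneg x y)
  rw [dist_def]
  linarith [supNorm_nonneg (fun x => f.toFun x - g.toFun x)]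

lemma dist_le_of {f g : Space ω} {a : ℝ} (ha : 0 ≤ a)
    (h1 : ∀ x, |f.toFun x - g.toFun x| ≤ a)
    (h2 : SemiLE ω (fun x => f.toFun x - g.toFun x) a) : dist f g ≤ a + a := by
  rw [dist_def]
  exact add_le_add (supNorm_le h1) (semi_le ha h2)

instance : CompleteSpace (Space ω) := by
  refine Metric.complete_of_cauchySeq_tendsto fun F hF => ?_
  have hcau : ∀ x, CauchySeq fun n => (F n).toFun x := by
    intro x
    rw [Metric.cauchySeq_iff] at hF ⊢
    intro ε hε
    obtain ⟨N, hN⟩ := hF ε hε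
    refine ⟨N, fun m hm n hn => ?_⟩
    rw [Real.dist_eq]
    exact (sup_le_dist _ _ x).trans_lt (hN m hm n hn)
  choose f hf using fun x => cauchySeq_tendsto_of_complete (hcau x)
  have hlim : ∀ ε : ℝ, 0 < ε → ∃ N, ∀ n ≥ N, (∀ x, |(F n).toFun x - f x| ≤ ε) ∧
      SemiLE ω (fun x => (F n).toFun x - f x) ε := by
    intro ε hε
    obtain ⟨N, hN⟩ := Metric.cauchySeq_iff.1 hF ε hε
    refine ⟨N, fun n hn => ⟨fun x => ?_, fun x y => ?_⟩⟩
    · have ht : Tendsto (fun m => |(F n).toFun x - (F m).toFun x|) atTop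
          (𝓝 |(F n).toFun x - f x|) := (tendsto_const_nhds.sub (hf x)).abs
      refine le_of_tendsto ht ?_
      filter_upwards [eventually_ge_atTop N] with m hm
      exact (sup_le_dist _ _ x).trans (hN n hn m hm).le
    · have ht : Tendsto (fun m => |((F n).toFun x - (F m).toFun x) -
          ((F n).toFun y - (F m).toFun y)|) atTop
          (𝓝 |((F n).toFun x - f x) - ((F n).toFun y - f y)|) :=
        ((tendsto_const_nhds.sub (hf x)).sub (tendsto_const_nhds.sub (hf y))).abs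
      refine le_of_tendsto ht ?_
      filter_upwards [eventually_ge_atTop N] with m hm
      refine (semiLE_dist (F n) (F m) x y).trans ?_
      exact mul_le_mul_of_nonneg_right (hN n hn m hm).le (omega_nonneg x y)
  obtain ⟨N₁, hN₁⟩ := hlim 1 one_pos
  obtain ⟨C, hC⟩ := (F N₁).bound
  have hfb : ∃ C, SemiLE ω f C := by
    refine ⟨C + 1, ?_⟩
    have h := hC.sub (hN₁ N₁ le_rfl).2
    have h4 : (fun x => (F N₁).toFun x - ((F N₁).toFun x - f x)) = f := by
      funext x
      ring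
    rwa [h4] at h
  refine ⟨⟨f, hfb⟩, ?_⟩
  rw [Metric.tendsto_atTop]
  intro ε hε
  obtain ⟨N, hN⟩ := hlim (ε / 4) (by positivity)
  refine ⟨N, fun n hn => ?_⟩
  have := dist_le_of (f := F n) (g := ⟨f, hfb⟩) (by positivity) (hN n hn).1 (hN n hn).2
  linarith

/-- A set which misses a nonempty open ball is not residual. -/
lemma not_residual {S : Set (Space ω)} {f : Space ω} {ε : ℝ} (hε : 0 < ε)
    (h : ∀ g ∈ ball f ε, g ∉ S) : S ∉ residual (Space ω) := by
  intro hS
  obtain ⟨g, hg1, hg2⟩ := (dense_of_mem_residual hS).exists_mem_open isOpen_ball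
    ⟨f, mem_ball_self hε⟩
  exact h g hg2 hg1

end space

/-! ### The square root -/

/-- The modulus `√t`. -/
noncomputable def sqrtModulus : Modulus where
  toFun := Real.sqrt
  mono := fun _ _ _ _ h => Real.sqrt_le_sqrt h
  pos := fun _ h _ => Real.sqrt_pos.2 h
  zero := Real.sqrt_zero
  lim := by
    have h := Real.continuous_sqrt.tendsto 0
    rw [Real.sqrt_zero] at h
    exact h.mono_left nhdsWithin_le_nhds

lemma concave_sqrt : ConcaveOn ℝ (Icc 0 1) sqrtModulus.toFun :=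
  (Real.strictConcaveOn_sqrt.concaveOn).subset (fun _ hx => hx.1) (convex_Icc 0 1)

lemma tendsto_sqrt_div : Tendsto (fun t => sqrtModulus.toFun t / t) (𝓝[>] 0) atTop := by
  have h1 : Tendsto (fun t : ℝ => √t) (𝓝[>] 0) (𝓝[>] 0) := by
    refine tendsto_nhdsWithin_iff.2 ⟨sqrtModulus.lim, ?_⟩
    filter_upwards [self_mem_nhdsWithin] with t ht
    exact Real.sqrt_pos.2 ht
  have h2 := tendsto_inv_nhdsGT_zero.comp h1
  refine h2.congr' ?_
  filter_upwards [self_mem_nhdsWithin] with t ht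
  have ht' : (0 : ℝ) < t := ht
  simp only [Function.comp_apply, sqrtModulus]
  rw [Real.sqrt_div_self', one_div]

lemma tendsto_log_sqrt :
    Tendsto (fun t => Real.log (sqrtModulus.toFun t) / Real.log t) (𝓝[>] 0) (𝓝 (1 / 2)) := by
  refine (tendsto_const_nhds (x := (1 / 2 : ℝ))).congr' ?_
  have h : ∀ᶠ t : ℝ in 𝓝[>] 0, t < 1 :=
    (eventually_lt_nhds one_pos).filter_mono nhdsWithin_le_nhds
  filter_upwards [self_mem_nhdsWithin, h] with t ht ht1
  have ht' : (0 : ℝ) < t := ht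
  have hlog : Real.log t ≠ 0 := (Real.log_neg ht' ht1).ne
  simp only [sqrtModulus]
  rw [Real.log_sqrt ht'.le]
  field_simp

/-- The oscillating function as a point of the space. -/
noncomputable def oscPoint : Space sqrtModulus where
  toFun x := osc x
  bound := ⟨4, fun x y => osc_up x y (dist_mem x y).2⟩

/-- In a ball around `oscPoint` all graphs have Assouad dimension at most some `s < 2`. -/
theorem ball_bound : ∃ s : ℝ, 0 ≤ s ∧ s < 2 ∧ ∀ g ∈ ball oscPoint (1 / 36),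
    ∃ C : ℝ, 0 < C ∧ ∀ r R : ℝ, 0 < r → r < R → ∀ x ∈ graph g.toFun,
      PackLE r (ball x R ∩ graph g.toFun) (C * (R / r) ^ s) := by
  obtain ⟨s, hs0, hs2, hs⟩ := graph_bound (M := 5) (c := 1 / 36) (by norm_num) (by norm_num)
  refine ⟨s, hs0, hs2, fun g hg => hs g.toFun (osc_of_near _ fun x y => ?_)⟩
  refine (semiLE_dist g oscPoint x y).trans ?_
  exact mul_le_mul_of_nonneg_right (mem_ball.1 hg).le (Real.sqrt_nonneg _)

end Pool.Agent.H200.Assouad
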