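import Mathlib

open MeasureTheory Metric Set Filter Topology
open scoped ENNReal NNReal

namespace Pool.Agent.H200.NewtonA

/-! Distributional identity for a radial kernel `q (‖x - y‖ ^ 2)` tested against
the function `(max (ρ - ‖x - x0‖ ^ 2) 0) ^ 3`. -/

variable {N : ℕ}

/-- Euclidean space. -/
abbrev E (N : ℕ) : Type := EuclideanSpace ℝ (Fin N)

lemma hasDerivAt_max_pow (k : ℕ) (s : ℝ) :
    HasDerivAt (fun t : ℝ => (max t 0) ^ (k + 2)) ((k + 2 : ℕ) * (max s 0) ^ (k + 1)) s := by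
  rcases lt_trichotomy s 0 with h | h | h
  · have h1 : (fun t : ℝ => (max t 0) ^ (k + 2)) =ᶠ[𝓝 s] fun _ => (0 : ℝ) := by
      filter_upwards [gt_mem_nhds h] with t ht
      rw [max_eq_right (le_of_lt ht)]
      simp
    rw [max_eq_right h.le]
    simpa using (hasDerivAt_const s (0 : ℝ)).congr_of_eventuallyEq h1
  · subst h
    have : HasDerivAt (fun t : ℝ => (max t 0) ^ (k + 2)) 0 0 := by
      rw [hasDerivAt_iff_isLittleO]
      simp only [max_self, sub_zero, smul_zero, ne_eq, Nat.add_eq_zero_iff, OfNat.ofNat_ne_zero, and_false,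
        not_false_eq_true, zero_pow]
      have h2 : (fun t : ℝ => (max t 0) ^ (k + 2)) =O[𝓝 0] fun t => t ^ (k + 2) := by
        refine Asymptotics.isBigO_of_le _ fun t => ?_
        rw [norm_pow, norm_pow]
        refine pow_le_pow_left₀ (norm_nonneg _) ?_ _
        rw [Real.norm_eq_abs, Real.norm_eq_abs, abs_of_nonneg (le_max_right _ _)]
        exact max_le (le_abs_self t) (abs_nonneg t)
      refine h2.trans_isLittleO ?_
      have := Asymptotics.isLittleO_pow_pow (𝕜 := ℝ) (m := 1) (n := k + 2) (by omega)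
      simpa using this
    simpa using this
  · have h1 : (fun t : ℝ => (max t 0) ^ (k + 2)) =ᶠ[𝓝 s] fun t => t ^ (k + 2) := by
      filter_upwards [lt_mem_nhds h] with t ht
      rw [max_eq_left (le_of_lt ht)]
    rw [max_eq_left h.le]
    exact (hasDerivAt_pow (k + 2) s).congr_of_eventuallyEq h1

/-- unit vector -/
noncomputable def ee (i : Fin N) : E N := EuclideanSpace.single i 1

lemma coord_line (x y : E N) (i : Fin N) (t : ℝ) :
    (x + t • ee i - y) i = (x - y) i + t := by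
  simp [ee]
  ring

lemma norm_line (x y : E N) (i : Fin N) (t : ℝ) :
    ‖x + t • ee i - y‖ ^ 2 = ‖x - y‖ ^ 2 + 2 * t * (x - y) i + t ^ 2 := by
  have h : x + t • ee i - y = (x - y) + t • ee i := by abel
  rw [h, @norm_add_sq_real]
  have h1 : inner ℝ (x - y) (t • ee i) = t * (x - y) i := by
    rw [real_inner_smul_right]
    congr 1
    simp [ee, EuclideanSpace.inner_single_right]
  have h2 : ‖t • (ee i : E N)‖ ^ 2 = t ^ 2 := by
    rw [norm_smul, mul_pow]
    simp [ee]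
  rw [h1, h2]
  ring

/-- the cut function -/
noncomputable def mm (ρ : ℝ) (x0 x : E N) : ℝ := max (ρ - ‖x - x0‖ ^ 2) 0

noncomputable def ph (ρ : ℝ) (x0 x : E N) : ℝ := (mm ρ x0 x) ^ 3
noncomputable def ph1 (ρ : ℝ) (x0 : E N) (i : Fin N) (x : E N) : ℝ :=
  -6 * (mm ρ x0 x) ^ 2 * (x - x0) i
noncomputable def ph2 (ρ : ℝ) (x0 : E N) (i : Fin N) (x : E N) : ℝ :=
  24 * (mm ρ x0 x) * ((x - x0) i) ^ 2 - 6 * (mm ρ x0 x) ^ 2

/-- The Laplacian of `ph`. -/
noncomputable def lap (ρ : ℝ) (x0 : E N) (x : E N) : ℝ :=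
  24 * (mm ρ x0 x) * ‖x - x0‖ ^ 2 - 6 * N * (mm ρ x0 x) ^ 2

lemma sum_sq (w : E N) : ∑ i, (w i) ^ 2 = ‖w‖ ^ 2 := by
  rw [EuclideanSpace.norm_sq_eq]
  simp

lemma sum_ph2 (ρ : ℝ) (x0 x : E N) : ∑ i, ph2 ρ x0 i x = lap ρ x0 x := by
  unfold ph2 lap
  rw [Finset.sum_sub_distrib, ← Finset.mul_sum, sum_sq]
  simp
  ring

lemma inner_line (x x0 : E N) (i : Fin N) (ρ : ℝ) :
    HasDerivAt (fun t : ℝ => ρ - ‖x + t • ee i - x0‖ ^ 2) (-2 * (x - x0) i) 0 := by
  have h : (fun t : ℝ => ρ - ‖x + t • ee i - x0‖ ^ 2)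
      = fun t => ρ - (‖x - x0‖ ^ 2 + 2 * t * (x - x0) i + t ^ 2) := by
    ext t
    rw [norm_line]
  rw [h]
  have h1 : HasDerivAt (fun t : ℝ => t) 1 0 := hasDerivAt_id 0
  have h2 := (((h1.const_mul 2).mul_const ((x - x0) i)).const_add (‖x - x0‖ ^ 2)).add (h1.pow 2)
  have h3 := h2.const_sub ρ
  convert! h3 using 1
  simp

lemma line_ph (ρ : ℝ) (x0 x : E N) (i : Fin N) :
    HasLineDerivAt ℝ (ph ρ x0) (ph1 ρ x0 i x) x (ee i) := by
  unfold HasLineDerivAt ph mm ph1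
  have h1 := inner_line x x0 i ρ
  have h2 := hasDerivAt_max_pow 1 (ρ - ‖x + (0 : ℝ) • ee i - x0‖ ^ 2)
  have h3 := HasDerivAt.comp (0 : ℝ) h2 h1
  convert! h3 using 1
  unfold mm
  simp
  ring

lemma line_ph1 (ρ : ℝ) (x0 x : E N) (i : Fin N) :
    HasLineDerivAt ℝ (ph1 ρ x0 i) (ph2 ρ x0 i x) x (ee i) := by
  unfold HasLineDerivAt ph1 mm ph2
  have h1 := inner_line x x0 i ρ
  have h2 := hasDerivAt_max_pow 0 (ρ - ‖x + (0 : ℝ) • ee i - x0‖ ^ 2)
  have h3 := HasDerivAt.comp (0 : ℝ) h2 h1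
  have h4 : HasDerivAt (fun t : ℝ => (x + t • ee i - x0) i) 1 0 := by
    have : (fun t : ℝ => (x + t • ee i - x0) i) = fun t => (x - x0) i + t := by
      ext t
      rw [coord_line]
    rw [this]
    exact (hasDerivAt_id 0).const_add _
  have h5 := (h3.const_mul (-6)).mul h4
  convert! h5 using 1
  unfold mm
  simp
  ring

lemma cont_mm (ρ : ℝ) (x0 : E N) : Continuous (mm ρ x0) := by
  unfold mm
  fun_prop

lemma cont_coord (x0 : E N) (i : Fin N) : Continuous fun x : E N => (x - x0) i := by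
  have : (fun x : E N => (x - x0) i) = fun x => x i - x0 i := by ext; simp
  rw [this]
  fun_prop

lemma mm_zero {ρ : ℝ} {x0 x : E N} (hx : x ∉ closedBall x0 (√ρ)) : mm ρ x0 x = 0 := by
  unfold mm
  apply max_eq_right
  rw [mem_closedBall, dist_eq_norm, not_le] at hx
  have := (Real.sqrt_lt' (lt_of_le_of_lt (Real.sqrt_nonneg _) hx)).1 hx
  linarith

lemma cs_of {ρ : ℝ} {x0 : E N} {f : E N → ℝ} (h : ∀ x, mm ρ x0 x = 0 → f x = 0) :
    HasCompactSupport f :=
  HasCompactSupport.intro (isCompact_closedBall x0 (√ρ)) fun x hx => h x (mm_zero hx)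

/-- kernel and its derivatives -/
noncomputable def G (q : ℝ → ℝ) (e : ℝ) (y x : E N) : ℝ := q (‖x - y‖ ^ 2 + e)
noncomputable def G1 (a e : ℝ) (y : E N) (i : Fin N) (x : E N) : ℝ :=
  -2 * a * (‖x - y‖ ^ 2 + e) ^ (-(N : ℝ) / 2) * (x - y) i
noncomputable def G2 (a e : ℝ) (y : E N) (i : Fin N) (x : E N) : ℝ :=
  -2 * a * (‖x - y‖ ^ 2 + e) ^ (-(N : ℝ) / 2)
    + 2 * a * N * (‖x - y‖ ^ 2 + e) ^ (-(N : ℝ) / 2 - 1) * ((x - y) i) ^ 2

lemma inner_line' (x y : E N) (i : Fin N) (e : ℝ) :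
    HasDerivAt (fun t : ℝ => ‖x + t • ee i - y‖ ^ 2 + e) (2 * (x - y) i) 0 := by
  have h := (inner_line x y i 0).neg.add_const e
  convert! h using 1
  · ext t
    simp
  · ring

lemma line_G {q : ℝ → ℝ} {a e : ℝ} (he : 0 < e)
    (hq : ∀ s, 0 < s → HasDerivAt q (-a * s ^ (-(N : ℝ) / 2)) s) (y x : E N) (i : Fin N) :
    HasLineDerivAt ℝ (G q e y) (G1 a e y i x) x (ee i) := by
  unfold HasLineDerivAt G G1
  have h1 := inner_line' x y i e
  have h2 := hq (‖x + (0 : ℝ) • ee i - y‖ ^ 2 + e) (by positivity)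
  have h3 := HasDerivAt.comp (0 : ℝ) h2 h1
  convert! h3 using 1
  simp
  ring

lemma line_G1 {a e : ℝ} (he : 0 < e) (y x : E N) (i : Fin N) :
    HasLineDerivAt ℝ (G1 a e y i) (G2 a e y i x) x (ee i) := by
  unfold HasLineDerivAt G1 G2
  have h1 := inner_line' x y i e
  have h2 := Real.hasDerivAt_rpow_const (p := -(N : ℝ) / 2)
    (Or.inl (ne_of_gt (by positivity : 0 < ‖x + (0 : ℝ) • ee i - y‖ ^ 2 + e)))
  have h3 := HasDerivAt.comp (0 : ℝ) h2 h1
  have h4 : HasDerivAt (fun t : ℝ => (x + t • ee i - y) i) 1 0 := by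
    have : (fun t : ℝ => (x + t • ee i - y) i) = fun t => (x - y) i + t := by
      ext t
      rw [coord_line]
    rw [this]
    exact (hasDerivAt_id 0).const_add _
  have h5 := (h3.const_mul (-2 * a)).mul h4
  convert! h5 using 1
  simp
  ring

lemma cont_rp {e : ℝ} (he : 0 < e) (y : E N) (p : ℝ) :
    Continuous fun x : E N => (‖x - y‖ ^ 2 + e) ^ p := by
  refine Continuous.rpow_const (by fun_prop) fun x => Or.inl ?_
  positivity

lemma cont_G {q : ℝ → ℝ} {a e : ℝ} (he : 0 < e)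
    (hq : ∀ s, 0 < s → HasDerivAt q (-a * s ^ (-(N : ℝ) / 2)) s) (y : E N) :
    Continuous (G q e y) := by
  rw [continuous_iff_continuousAt]
  intro x
  unfold G
  have h1 : ContinuousAt q (‖x - y‖ ^ 2 + e) := (hq _ (by positivity)).continuousAt
  have h2 : ContinuousAt (fun x : E N => ‖x - y‖ ^ 2 + e) x := by fun_prop
  exact ContinuousAt.comp (f := fun x : E N => ‖x - y‖ ^ 2 + e) h1 h2

lemma cont_G1 {a e : ℝ} (he : 0 < e) (y : E N) (i : Fin N) : Continuous (G1 a e y i) := by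
  unfold G1
  exact (continuous_const.mul (cont_rp he y _)).mul (cont_coord y i)

lemma cont_G2 {a e : ℝ} (he : 0 < e) (y : E N) (i : Fin N) : Continuous (G2 a e y i) := by
  unfold G2
  exact (continuous_const.mul (cont_rp he y _)).add
    ((continuous_const.mul (cont_rp he y _)).mul ((cont_coord y i).pow 2))

lemma cont_ph (ρ : ℝ) (x0 : E N) : Continuous (ph ρ x0) := (cont_mm ρ x0).pow 3
lemma cont_ph1 (ρ : ℝ) (x0 : E N) (i : Fin N) : Continuous (ph1 ρ x0 i) :=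
  (continuous_const.mul ((cont_mm ρ x0).pow 2)).mul (cont_coord x0 i)
lemma cont_ph2 (ρ : ℝ) (x0 : E N) (i : Fin N) : Continuous (ph2 ρ x0 i) :=
  ((continuous_const.mul (cont_mm ρ x0)).mul ((cont_coord x0 i).pow 2)).sub
    (continuous_const.mul ((cont_mm ρ x0).pow 2))
lemma cont_lap (ρ : ℝ) (x0 : E N) : Continuous (lap ρ x0) := by
  unfold lap
  have := cont_mm ρ x0
  fun_prop

lemma ibp {f f' g g' : E N → ℝ} {v : E N} (hf : Continuous f) (hf' : Continuous f')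
    (hg : Continuous g) (hg' : Continuous g') (cg : HasCompactSupport g)
    (cg' : HasCompactSupport g') (df : ∀ x, HasLineDerivAt ℝ f (f' x) x v)
    (dg : ∀ x, HasLineDerivAt ℝ g (g' x) x v) :
    ∫ x, f x * g' x = - ∫ x, f' x * g x := by
  have := integral_bilinear_hasLineDerivAt_right_eq_neg_left_of_integrable
    (μ := (volume : Measure (E N))) (f := f) (f' := f') (g := g) (g' := g') (v := v)
    (B := ContinuousLinearMap.mul ℝ ℝ)
    ((hf'.mul hg).integrable_of_hasCompactSupport cg.mul_left)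
    ((hf.mul hg').integrable_of_hasCompactSupport cg'.mul_left)
    ((hf.mul hg).integrable_of_hasCompactSupport cg.mul_left)
    (fun x _ => df x) (fun x _ => dg x)
  simpa using this

lemma ibp2 {q : ℝ → ℝ} {a e : ℝ} (he : 0 < e)
    (hq : ∀ s, 0 < s → HasDerivAt q (-a * s ^ (-(N : ℝ) / 2)) s) (ρ : ℝ) (x0 y : E N) (i : Fin N) :
    ∫ x, G q e y x * ph2 ρ x0 i x = ∫ x, G2 a e y i x * ph ρ x0 x := by
  rw [ibp (cont_G he hq y) (cont_G1 he y i) (cont_ph1 ρ x0 i) (cont_ph2 ρ x0 i)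
    (cs_of (ρ := ρ) (x0 := x0) fun x hx => by simp [ph1, hx])
    (cs_of (ρ := ρ) (x0 := x0) fun x hx => by simp [ph2, hx])
    (fun x => line_G he hq y x i) (fun x => line_ph1 ρ x0 x i)]
  rw [ibp (cont_G1 he y i) (cont_G2 he y i) (cont_ph ρ x0) (cont_ph1 ρ x0 i)
    (cs_of (ρ := ρ) (x0 := x0) fun x hx => by simp [ph, hx])
    (cs_of (ρ := ρ) (x0 := x0) fun x hx => by simp [ph1, hx])
    (fun x => line_G1 he y x i) (fun x => line_ph ρ x0 x i)]
  ring

lemma lap_zero (ρ : ℝ) (x0 : E N) : ∫ x, lap ρ x0 x = 0 := by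
  have h : ∀ i : Fin N, ∫ x, ph2 ρ x0 i x = 0 := by
    intro i
    have := ibp (f := fun _ => (1 : ℝ)) (f' := fun _ => 0) continuous_const continuous_const
      (cont_ph1 ρ x0 i) (cont_ph2 ρ x0 i)
      (cs_of (ρ := ρ) (x0 := x0) fun x hx => by simp [ph1, hx])
      (cs_of (ρ := ρ) (x0 := x0) fun x hx => by simp [ph2, hx])
      (fun x => by
        unfold HasLineDerivAt
        exact hasDerivAt_const _ _) (fun x => line_ph1 ρ x0 x i)
    simpa using this
  simp_rw [← sum_ph2]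
  rw [integral_finsetSum _ fun i _ => (cont_ph2 ρ x0 i).integrable_of_hasCompactSupport
    (cs_of (ρ := ρ) (x0 := x0) fun x hx => by simp [ph2, hx])]
  simp [h]

lemma sum_G2 {a e : ℝ} (he : 0 < e) (y x : E N) :
    ∑ i, G2 a e y i x = -(2 * a * N) * (e * (‖x - y‖ ^ 2 + e) ^ (-(N : ℝ) / 2 - 1)) := by
  unfold G2
  rw [Finset.sum_add_distrib, ← Finset.mul_sum, ← Finset.mul_sum, sum_sq]
  have h : (‖x - y‖ ^ 2 + e) ^ (-(N : ℝ) / 2)
      = (‖x - y‖ ^ 2 + e) ^ (-(N : ℝ) / 2 - 1) * (‖x - y‖ ^ 2 + e) := by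
    have hp : 0 < ‖x - y‖ ^ 2 + e := by positivity
    nth_rewrite 3 [← Real.rpow_one (‖x - y‖ ^ 2 + e)]
    rw [← Real.rpow_add hp]
    congr 1
    ring
  rw [h]
  simp
  ring

/-- identity for the regularised kernel -/
lemma reg_identity {q : ℝ → ℝ} {a e : ℝ} (he : 0 < e)
    (hq : ∀ s, 0 < s → HasDerivAt q (-a * s ^ (-(N : ℝ) / 2)) s) (ρ : ℝ) (x0 y : E N) :
    ∫ x, G q e y x * lap ρ x0 x
      = -(2 * a * N) * ∫ x, (e * (‖x - y‖ ^ 2 + e) ^ (-(N : ℝ) / 2 - 1)) * ph ρ x0 x := by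
  have h1 : ∫ x, G q e y x * lap ρ x0 x = ∑ i, ∫ x, G q e y x * ph2 ρ x0 i x := by
    have hi : ∀ i ∈ (Finset.univ : Finset (Fin N)),
        Integrable (fun x => G q e y x * ph2 ρ x0 i x) := fun i _ => ((cont_G he hq y).mul
      (cont_ph2 ρ x0 i)).integrable_of_hasCompactSupport
      ((cs_of (ρ := ρ) (x0 := x0) fun x hx => by simp [ph2, hx]).mul_left)
    rw [← integral_finsetSum _ hi]
    refine integral_congr_ae (ae_of_all _ fun x => ?_)
    simp only
    rw [← Finset.mul_sum, sum_ph2]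
  have h2 : ∑ i, ∫ x, G2 a e y i x * ph ρ x0 x
      = -(2 * a * N) * ∫ x, (e * (‖x - y‖ ^ 2 + e) ^ (-(N : ℝ) / 2 - 1)) * ph ρ x0 x := by
    have hi : ∀ i ∈ (Finset.univ : Finset (Fin N)),
        Integrable (fun x => G2 a e y i x * ph ρ x0 x) := fun i _ => ((cont_G2 he y i).mul
      (cont_ph ρ x0)).integrable_of_hasCompactSupport
      ((cs_of (ρ := ρ) (x0 := x0) fun x hx => by simp [ph, hx]).mul_left)
    rw [← integral_finsetSum _ hi]
    rw [← integral_const_mul]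
    refine integral_congr_ae (ae_of_all _ fun x => ?_)
    simp only
    rw [← Finset.sum_mul, sum_G2 he]
    ring
  rw [h1, ← h2]
  exact Finset.sum_congr rfl fun i _ => ibp2 he hq ρ x0 y i

end Pool.Agent.H200.NewtonA
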