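import Mathlib
import Pool.Agent.H200.NewtonA

open MeasureTheory Metric Set Filter Topology
open scoped ENNReal NNReal

namespace Pool.Agent.H200.NewtonB

open Pool.Agent.H200.NewtonA

variable {N : ℕ}

lemma ph_nonneg (ρ : ℝ) (x0 x : E N) : 0 ≤ ph ρ x0 x := by
  unfold ph mm
  positivity

lemma mm_nonneg (ρ : ℝ) (x0 x : E N) : 0 ≤ mm ρ x0 x := le_max_right _ _

lemma mm_le {ρ : ℝ} (hρ : 0 ≤ ρ) (x0 x : E N) : mm ρ x0 x ≤ ρ := by
  unfold mm
  refine max_le ?_ hρ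
  have := sq_nonneg ‖x - x0‖
  linarith

lemma ph_le {ρ : ℝ} (hρ : 0 ≤ ρ) (x0 x : E N) : ph ρ x0 x ≤ ρ ^ 3 :=
  pow_le_pow_left₀ (mm_nonneg _ _ _) (mm_le hρ x0 x) 3

lemma lap_le {ρ : ℝ} (hρ : 0 ≤ ρ) (x0 x : E N) : |lap ρ x0 x| ≤ (24 + 6 * N) * ρ ^ 2 := by
  have h0 := mm_nonneg ρ x0 x
  have h1 := mm_le hρ x0 x
  by_cases hx : ‖x - x0‖ ^ 2 ≤ ρ
  · unfold lap
    have h2 : 0 ≤ ‖x - x0‖ ^ 2 := sq_nonneg _
    have h3 : mm ρ x0 x * ‖x - x0‖ ^ 2 ≤ ρ * ρ := mul_le_mul h1 hx h2 hρ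
    have h4 : (mm ρ x0 x) ^ 2 ≤ ρ ^ 2 := pow_le_pow_left₀ h0 h1 2
    have h5 : 0 ≤ mm ρ x0 x * ‖x - x0‖ ^ 2 := mul_nonneg h0 h2
    have h6 : 0 ≤ (N : ℝ) * (mm ρ x0 x) ^ 2 := by positivity
    have h7 : (N : ℝ) * (mm ρ x0 x) ^ 2 ≤ N * ρ ^ 2 := by gcongr
    have h8 : 0 ≤ (N : ℝ) * ρ ^ 2 := by positivity
    rw [abs_le]
    constructor
    · nlinarith
    · nlinarith
  · have h2 : mm ρ x0 x = 0 := by
      unfold mm
      apply max_eq_right
      linarith
    unfold lap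
    rw [h2]
    simp
    positivity

lemma cs_lap (ρ : ℝ) (x0 : E N) : HasCompactSupport (lap ρ x0) :=
  cs_of (ρ := ρ) (x0 := x0) fun x hx => by simp [lap, hx]

lemma lap_shift (ρ : ℝ) (x0 y x : E N) : lap ρ (x0 - y) (x - y) = lap ρ x0 x := by
  unfold lap mm
  rw [sub_sub_sub_cancel_right]

/-- substitution in the regularised identity -/
lemma subst_reg {ε : ℝ} (hε : 0 < ε) (ρ : ℝ) (x0 y : E N) :
    ∫ x, (ε ^ 2 * (‖x - y‖ ^ 2 + ε ^ 2) ^ (-(N : ℝ) / 2 - 1)) * ph ρ x0 x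
      = ∫ z, (‖z‖ ^ 2 + 1) ^ (-(N : ℝ) / 2 - 1) * ph ρ x0 (y + ε • z) := by
  set F : E N → ℝ := fun x => (ε ^ 2 * (‖x - y‖ ^ 2 + ε ^ 2) ^ (-(N : ℝ) / 2 - 1)) * ph ρ x0 x
    with hF
  have h1 : ∫ x, F x = ∫ x, F (y + x) := (integral_add_left_eq_self F y).symm
  have h2 : ∫ z, F (y + ε • z) = |(ε ^ N)⁻¹| • ∫ x, F (y + x) := by
    have := Measure.integral_comp_smul (volume : Measure (E N)) (fun x => F (y + x)) ε
    simpa using this
  have h3 : ∫ x, F x = ε ^ N * ∫ z, F (y + ε • z) := by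
    rw [h1, h2, abs_of_pos (by positivity), smul_eq_mul, ← mul_assoc, mul_inv_cancel₀ (by positivity),
      one_mul]
  rw [h3, ← integral_const_mul]
  refine integral_congr_ae (ae_of_all _ fun z => ?_)
  simp only [hF]
  have h4 : ‖y + ε • z - y‖ ^ 2 + ε ^ 2 = ε ^ 2 * (‖z‖ ^ 2 + 1) := by
    rw [add_sub_cancel_left, norm_smul, mul_pow, Real.norm_eq_abs, sq_abs]
    ring
  rw [h4, Real.mul_rpow (by positivity) (by positivity)]
  have h5 : (ε ^ 2 : ℝ) ^ (-(N : ℝ) / 2 - 1) = (ε ^ N * ε ^ 2)⁻¹ := by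
    rw [← Real.rpow_natCast ε 2, ← Real.rpow_mul hε.le, ← Real.rpow_natCast ε N,
      ← Real.rpow_add hε, ← Real.rpow_neg hε.le]
    congr 1
    push_cast
    ring
  rw [h5]
  have h6 : (ε ^ N : ℝ) ≠ 0 := by positivity
  have h7 : (ε ^ 2 : ℝ) ≠ 0 := by positivity
  field_simp

lemma integrable_kap : Integrable (fun z : E N => (‖z‖ ^ 2 + 1) ^ (-(N : ℝ) / 2 - 1)) := by
  have h := integrable_rpow_neg_one_add_norm_sq (E := E N) (μ := volume) (r := (N : ℝ) + 2)
    (by simp)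
  convert! h using 3
  · rw [add_comm]
  · ring

/-- the constant -/
noncomputable def kap (N : ℕ) : ℝ := ∫ z : E N, (‖z‖ ^ 2 + 1) ^ (-(N : ℝ) / 2 - 1)

lemma kap_pos (N : ℕ) : 0 < kap N := by
  unfold kap
  rw [integral_pos_iff_support_of_nonneg (fun z => by positivity) integrable_kap]
  have h : Function.support (fun z : E N => (‖z‖ ^ 2 + 1) ^ (-(N : ℝ) / 2 - 1)) = univ := by
    ext z
    have : 0 < (‖z‖ ^ 2 + 1) ^ (-(N : ℝ) / 2 - 1) := by positivity
    simp [this.ne']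
  rw [h]
  exact isOpen_univ.measure_pos volume univ_nonempty

lemma tendsto_reg {ρ : ℝ} (hρ : 0 ≤ ρ) (x0 y : E N) :
    Tendsto (fun ε : ℝ => ∫ x, (ε ^ 2 * (‖x - y‖ ^ 2 + ε ^ 2) ^ (-(N : ℝ) / 2 - 1)) * ph ρ x0 x)
      (𝓝[>] 0) (𝓝 (kap N * ph ρ x0 y)) := by
  have h0 : Tendsto (fun ε : ℝ => ∫ z, (‖z‖ ^ 2 + 1) ^ (-(N : ℝ) / 2 - 1) * ph ρ x0 (y + ε • z))
      (𝓝[>] 0) (𝓝 (∫ z : E N, (‖z‖ ^ 2 + 1) ^ (-(N : ℝ) / 2 - 1) * ph ρ x0 y)) := by
    refine tendsto_integral_filter_of_dominated_convergence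
      (fun z => (‖z‖ ^ 2 + 1) ^ (-(N : ℝ) / 2 - 1) * ρ ^ 3) ?_ ?_ ?_ ?_
    · refine Eventually.of_forall fun ε => Continuous.aestronglyMeasurable ?_
      have hc : Continuous fun z : E N => (‖z‖ ^ 2 + 1) ^ (-(N : ℝ) / 2 - 1) :=
        Continuous.rpow_const (by fun_prop) fun x => Or.inl (by positivity)
      exact hc.mul ((cont_ph ρ x0).comp (by fun_prop))
    · refine Eventually.of_forall fun ε => ae_of_all _ fun z => ?_
      rw [norm_mul, Real.norm_eq_abs, Real.norm_eq_abs, abs_of_nonneg (ph_nonneg _ _ _),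
        abs_of_nonneg (by positivity)]
      gcongr
      exact ph_le hρ _ _
    · exact integrable_kap.mul_const _
    · refine ae_of_all _ fun z => ?_
      refine Tendsto.const_mul _ ?_
      have hc : Continuous fun ε : ℝ => ph ρ x0 (y + ε • z) := (cont_ph ρ x0).comp (by fun_prop)
      have := (hc.tendsto 0).mono_left (nhdsWithin_le_nhds (s := Ioi 0))
      simpa using this
  rw [integral_mul_const] at h0
  refine h0.congr' ?_
  filter_upwards [self_mem_nhdsWithin] with ε hε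
  exact (subst_reg hε ρ x0 y).symm

lemma anti {q : ℝ → ℝ} {a : ℝ} (ha : 0 ≤ a)
    (hq : ∀ s, 0 < s → HasDerivAt q (-a * s ^ (-(N : ℝ) / 2)) s) {s t : ℝ} (hs : 0 < s)
    (hst : s ≤ t) : q t ≤ q s := by
  have h : AntitoneOn q (Ioi 0) := by
    refine antitoneOn_of_deriv_nonpos (convex_Ioi 0)
      (fun x hx => (hq x hx).continuousAt.continuousWithinAt) ?_ ?_
    · rw [interior_Ioi]
      exact fun x hx => (hq x hx).differentiableAt.differentiableWithinAt
    · rw [interior_Ioi]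
      intro x hx
      rw [(hq x hx).deriv]
      have : 0 ≤ x ^ (-(N : ℝ) / 2) := Real.rpow_nonneg (le_of_lt hx) _
      nlinarith
  exact h hs (lt_of_lt_of_le hs hst) hst

lemma int_q {q : ℝ → ℝ} (hloc : LocallyIntegrable (fun z : E N => q (‖z‖ ^ 2)))
    (ρ : ℝ) (x0 y : E N) : Integrable (fun x => q (‖x - y‖ ^ 2) * lap ρ x0 x) := by
  have h1 := hloc.integrable_smul_left_of_hasCompactSupport (cont_lap ρ (x0 - y)) (cs_lap ρ (x0 - y))
  have h2 := h1.comp_sub_right y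
  refine h2.congr (ae_of_all _ fun x => ?_)
  simp only [smul_eq_mul]
  rw [lap_shift, mul_comm]

/-- the distributional identity -/
lemma identity (hN : 0 < N) {q : ℝ → ℝ} {a : ℝ} (ha : 0 ≤ a)
    (hq : ∀ s, 0 < s → HasDerivAt q (-a * s ^ (-(N : ℝ) / 2)) s)
    (hloc : LocallyIntegrable (fun z : E N => q (‖z‖ ^ 2)))
    {ρ : ℝ} (hρ : 0 ≤ ρ) (x0 y : E N) :
    ∫ x, q (‖x - y‖ ^ 2) * lap ρ x0 x = -(2 * a * N * kap N) * ph ρ x0 y := by
  have : Nonempty (Fin N) := ⟨⟨0, hN⟩⟩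
  have h1 : Tendsto (fun ε : ℝ => ∫ x, G q (ε ^ 2) y x * lap ρ x0 x) (𝓝[>] 0)
      (𝓝 (∫ x, q (‖x - y‖ ^ 2) * lap ρ x0 x)) := by
    refine tendsto_integral_filter_of_dominated_convergence
      (fun x => |q (‖x - y‖ ^ 2) * lap ρ x0 x| + |G q 1 y x * lap ρ x0 x|) ?_ ?_ ?_ ?_
    · filter_upwards [self_mem_nhdsWithin] with ε hε
      have hε' : (0 : ℝ) < ε := hε
      exact ((cont_G (by positivity) hq y).mul (cont_lap ρ x0)).aestronglyMeasurable
    · filter_upwards [self_mem_nhdsWithin, Ioc_mem_nhdsGT (zero_lt_one (α := ℝ))] with ε hε hε1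
      have hε' : (0 : ℝ) < ε := hε
      have hne : ∀ᵐ x : E N, x ≠ y := by
        have := (Set.countable_singleton y).ae_notMem (volume : Measure (E N))
        simpa using this
      filter_upwards [hne] with x hx
      have hp : 0 < ‖x - y‖ ^ 2 := by
        have : 0 < ‖x - y‖ := norm_pos_iff.2 (sub_ne_zero.2 hx)
        positivity
      have h2 : q (‖x - y‖ ^ 2 + ε ^ 2) ≤ q (‖x - y‖ ^ 2) := anti ha hq hp (by nlinarith)
      have h3 : q (‖x - y‖ ^ 2 + 1) ≤ q (‖x - y‖ ^ 2 + ε ^ 2) :=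
        anti ha hq (by positivity) (by nlinarith [hε1.2])
      have h4 : |G q (ε ^ 2) y x| ≤ |q (‖x - y‖ ^ 2)| + |G q 1 y x| := by
        unfold G
        rw [abs_le]
        constructor
        · have := neg_abs_le (q (‖x - y‖ ^ 2 + 1))
          have := abs_nonneg (q (‖x - y‖ ^ 2))
          linarith
        · have := le_abs_self (q (‖x - y‖ ^ 2))
          have := abs_nonneg (q (‖x - y‖ ^ 2 + 1))
          linarith
      rw [norm_mul, Real.norm_eq_abs, Real.norm_eq_abs, abs_mul, abs_mul, ← add_mul]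
      gcongr
    · exact (int_q hloc ρ x0 y).abs.add (((cont_G (by norm_num) hq y).mul
        (cont_lap ρ x0)).integrable_of_hasCompactSupport (cs_lap ρ x0).mul_left).abs
    · have hne : ∀ᵐ x : E N, x ≠ y := by
        have := (Set.countable_singleton y).ae_notMem (volume : Measure (E N))
        simpa using this
      filter_upwards [hne] with x hx
      have hp : 0 < ‖x - y‖ ^ 2 := by
        have : 0 < ‖x - y‖ := norm_pos_iff.2 (sub_ne_zero.2 hx)
        positivity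
      refine Tendsto.mul_const _ ?_
      unfold G
      have h5 : Tendsto (fun ε : ℝ => ‖x - y‖ ^ 2 + ε ^ 2) (𝓝[>] 0) (𝓝 (‖x - y‖ ^ 2)) := by
        have hc : Continuous fun ε : ℝ => ‖x - y‖ ^ 2 + ε ^ 2 := by fun_prop
        have := (hc.tendsto 0).mono_left (nhdsWithin_le_nhds (s := Ioi 0))
        simpa using this
      exact (hq _ hp).continuousAt.tendsto.comp h5
  have h2 : Tendsto (fun ε : ℝ => ∫ x, G q (ε ^ 2) y x * lap ρ x0 x) (𝓝[>] 0)
      (𝓝 (-(2 * a * N) * (kap N * ph ρ x0 y))) := by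
    refine ((tendsto_reg hρ x0 y).const_mul (-(2 * a * N))).congr' ?_
    filter_upwards [self_mem_nhdsWithin] with ε hε
    have hε' : (0 : ℝ) < ε := hε
    exact (reg_identity (by positivity) hq ρ x0 y).symm
  rw [tendsto_nhds_unique h1 h2]
  ring

/-- Fubini for the potential of a finite measure carried by a bounded set. -/
lemma prod_int {q : ℝ → ℝ} (hqm : Measurable q)
    (hloc : LocallyIntegrable (fun z : E N => q (‖z‖ ^ 2)))
    {ρ : ℝ} (hρ : 0 ≤ ρ) (x0 : E N) (ν : Measure (E N)) [IsFiniteMeasure ν] {R1 : ℝ}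
    (hν : ∀ᵐ y ∂ν, ‖y‖ ≤ R1) :
    Integrable (Function.uncurry fun x y : E N => q (‖x - y‖ ^ 2) * lap ρ x0 x)
      ((volume : Measure (E N)).prod ν) := by
  have hm : Measurable (Function.uncurry fun x y : E N => q (‖x - y‖ ^ 2) * lap ρ x0 x) := by
    have h1 : Measurable fun p : E N × E N => q (‖p.1 - p.2‖ ^ 2) :=
      hqm.comp (by fun_prop)
    have h2 : Measurable fun p : E N × E N => lap ρ x0 p.1 :=
      (cont_lap ρ x0).measurable.comp measurable_fst
    exact h1.mul h2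
  rw [integrable_prod_iff' hm.aestronglyMeasurable]
  refine ⟨ae_of_all _ fun y => int_q hloc ρ x0 y, ?_⟩
  set L : ℝ := (24 + 6 * N) * ρ ^ 2 with hL
  set R : ℝ := R1 + ‖x0‖ + √ρ with hR
  have hI : IntegrableOn (fun z : E N => q (‖z‖ ^ 2)) (closedBall 0 R) :=
    hloc.integrableOn_isCompact (isCompact_closedBall 0 R)
  refine Integrable.of_bound (C := L * ∫ z in closedBall (0 : E N) R, |q (‖z‖ ^ 2)|) ?_ ?_
  · exact (hm.norm.stronglyMeasurable.integral_prod_left').aestronglyMeasurable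
  · filter_upwards [hν] with y hy
    rw [Real.norm_eq_abs, abs_of_nonneg (integral_nonneg fun _ => norm_nonneg _)]
    have h1 : ∫ x, ‖Function.uncurry (fun x y : E N => q (‖x - y‖ ^ 2) * lap ρ x0 x) (x, y)‖
        = ∫ z, |q (‖z‖ ^ 2) * lap ρ (x0 - y) z| := by
      rw [← integral_sub_right_eq_self (fun z => |q (‖z‖ ^ 2) * lap ρ (x0 - y) z|) y]
      refine integral_congr_ae (ae_of_all _ fun x => ?_)
      simp only [Function.uncurry, Real.norm_eq_abs]
      rw [lap_shift]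
    rw [h1, ← integral_const_mul, ← integral_indicator isClosed_closedBall.measurableSet]
    refine integral_mono_of_nonneg (ae_of_all _ fun _ => abs_nonneg _) ?_ (ae_of_all _ fun z => ?_)
    · rw [integrable_indicator_iff isClosed_closedBall.measurableSet]
      exact hI.abs.const_mul L
    · simp only
      by_cases hz : z ∈ closedBall (0 : E N) R
      · rw [indicator_of_mem hz, abs_mul, mul_comm]
        gcongr
        exact lap_le hρ _ _
      · rw [indicator_of_notMem hz]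
        have h2 : z ∉ closedBall (x0 - y) (√ρ) := by
          intro h3
          apply hz
          rw [mem_closedBall, dist_zero_right]
          rw [mem_closedBall, dist_eq_norm] at h3
          calc ‖z‖ = ‖(z - (x0 - y)) + x0 - y‖ := by congr 1; abel
            _ ≤ ‖(z - (x0 - y)) + x0‖ + ‖y‖ := norm_sub_le _ _
            _ ≤ ‖z - (x0 - y)‖ + ‖x0‖ + ‖y‖ := by gcongr; exact norm_add_le _ _
            _ ≤ R := by rw [hR]; linarith
        have h3 : lap ρ (x0 - y) z = 0 := by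
          unfold lap
          rw [mm_zero h2]
          simp
        rw [h3]
        simp

lemma fub (hN : 0 < N) {q : ℝ → ℝ} {a : ℝ} (ha : 0 ≤ a) (hqm : Measurable q)
    (hq : ∀ s, 0 < s → HasDerivAt q (-a * s ^ (-(N : ℝ) / 2)) s)
    (hloc : LocallyIntegrable (fun z : E N => q (‖z‖ ^ 2)))
    {ρ : ℝ} (hρ : 0 ≤ ρ) (x0 : E N) (ν : Measure (E N)) [IsFiniteMeasure ν] {R1 : ℝ}
    (hν : ∀ᵐ y ∂ν, ‖y‖ ≤ R1) :
    Integrable (fun x => (∫ y, q (‖x - y‖ ^ 2) ∂ν) * lap ρ x0 x) ∧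
    ∫ x, (∫ y, q (‖x - y‖ ^ 2) ∂ν) * lap ρ x0 x
      = -(2 * a * N * kap N) * ∫ y, ph ρ x0 y ∂ν := by
  have hp := prod_int hqm hloc hρ x0 ν hν
  constructor
  · have := hp.integral_prod_left
    refine this.congr (ae_of_all _ fun x => ?_)
    simp only [Function.uncurry]
    rw [integral_mul_const]
  · have h1 : ∫ x, (∫ y, q (‖x - y‖ ^ 2) ∂ν) * lap ρ x0 x
        = ∫ x, ∫ y, q (‖x - y‖ ^ 2) * lap ρ x0 x ∂ν := by
      refine integral_congr_ae (ae_of_all _ fun x => ?_)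
      simp only
      rw [integral_mul_const]
    rw [h1, integral_integral_swap hp, ← integral_const_mul]
    refine integral_congr_ae (ae_of_all _ fun y => ?_)
    exact identity hN ha hq hloc hρ x0 y

end Pool.Agent.H200.NewtonB
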