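import Mathlib
import Pool.Agent.H200.NewtonB

open MeasureTheory Metric Set Filter Topology
open scoped ENNReal NNReal

namespace Pool.Agent.H200.NewtonC

open Pool.Agent.H200.NewtonA Pool.Agent.H200.NewtonB

variable {N : ℕ}

lemma main_est (hN : 0 < N) {q : ℝ → ℝ} {a : ℝ} (ha : 0 ≤ a) (hqm : Measurable q)
    (hq : ∀ s, 0 < s → HasDerivAt q (-a * s ^ (-(N : ℝ) / 2)) s)
    (hloc : LocallyIntegrable (fun z : E N => q (‖z‖ ^ 2)))
    (ν1 ν2 : Measure (E N)) [IsFiniteMeasure ν1] [IsFiniteMeasure ν2] {R1 : ℝ}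
    (hν1 : ∀ᵐ y ∂ν1, ‖y‖ ≤ R1) (hν2 : ∀ᵐ y ∂ν2, ‖y‖ ≤ R1)
    {Ω : Set (E N)} (hΩ : MeasurableSet Ω) {h : E N → ℝ} {K β : ℝ} (hK : 0 ≤ K) (hβ : 0 < β)
    (hh : ∀ x ∈ Ω, ∀ y ∈ Ω, |h x - h y| ≤ K * ‖x - y‖ ^ β)
    (hu : ∀ᵐ x ∂(volume.restrict Ω),
      (∫ y, q (‖x - y‖ ^ 2) ∂ν1) - (∫ y, q (‖x - y‖ ^ 2) ∂ν2) = h x)
    {x0 : E N} {r : ℝ} (hr : 0 < r) (hB : closedBall x0 (2 * r) ⊆ Ω) :
    (2 * a * N * kap N) * ((∫ y, ph ((2 * r) ^ 2) x0 y ∂ν1) - ∫ y, ph ((2 * r) ^ 2) x0 y ∂ν2)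
      ≤ (K * (2 * r) ^ β * ((24 + 6 * N) * ((2 * r) ^ 2) ^ 2))
        * ((2 * r) ^ N * (volume (ball (0 : E N) 1)).toReal) := by
  set ρ : ℝ := (2 * r) ^ 2 with hρd
  have hρ : 0 ≤ ρ := by positivity
  have hsq : √ρ = 2 * r := Real.sqrt_sq (by positivity)
  obtain ⟨i1, e1⟩ := fub hN ha hqm hq hloc hρ x0 ν1 hν1
  obtain ⟨i2, e2⟩ := fub hN ha hqm hq hloc hρ x0 ν2 hν2
  set u : E N → ℝ := fun x => (∫ y, q (‖x - y‖ ^ 2) ∂ν1) - (∫ y, q (‖x - y‖ ^ 2) ∂ν2) with hud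
  have il : Integrable (lap ρ x0) :=
    (cont_lap ρ x0).integrable_of_hasCompactSupport (cs_lap ρ x0)
  have h1 : (2 * a * N * kap N) * ((∫ y, ph ρ x0 y ∂ν1) - ∫ y, ph ρ x0 y ∂ν2)
      = - ∫ x, (u x - h x0) * lap ρ x0 x := by
    have h2 : ∫ x, (u x - h x0) * lap ρ x0 x
        = (∫ x, (∫ y, q (‖x - y‖ ^ 2) ∂ν1) * lap ρ x0 x)
          - (∫ x, (∫ y, q (‖x - y‖ ^ 2) ∂ν2) * lap ρ x0 x) - ∫ x, h x0 * lap ρ x0 x := by
      have i3 : Integrable (fun x => (∫ y, q (‖x - y‖ ^ 2) ∂ν1) * lap ρ x0 x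
          - (∫ y, q (‖x - y‖ ^ 2) ∂ν2) * lap ρ x0 x) := i1.sub i2
      rw [← integral_sub i1 i2, ← integral_sub i3 (il.const_mul _)]
      refine integral_congr_ae (ae_of_all _ fun x => ?_)
      simp only [hud]
      ring
    rw [h2, e1, e2, integral_const_mul, lap_zero]
    ring
  rw [h1]
  set L : ℝ := K * (2 * r) ^ β * ((24 + 6 * N) * ρ ^ 2) with hL
  have hL0 : 0 ≤ L := by positivity
  have hu' : ∀ᵐ x : E N, x ∈ Ω → u x = h x := (ae_restrict_iff' hΩ).1 hu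
  have hmem : x0 ∈ Ω := hB (mem_closedBall_self (by positivity))
  have h3 : ∀ᵐ x : E N, ‖(u x - h x0) * lap ρ x0 x‖
      ≤ (closedBall x0 (2 * r)).indicator (fun _ => L) x := by
    filter_upwards [hu'] with x hx
    by_cases hxb : x ∈ closedBall x0 (2 * r)
    · rw [indicator_of_mem hxb, norm_mul, Real.norm_eq_abs, Real.norm_eq_abs, hx (hB hxb), hL]
      have h4 : |h x - h x0| ≤ K * (2 * r) ^ β := by
        refine (hh x (hB hxb) x0 hmem).trans ?_
        rw [mem_closedBall, dist_eq_norm] at hxb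
        gcongr
      exact mul_le_mul h4 (lap_le hρ x0 x) (abs_nonneg _) (by positivity)
    · rw [indicator_of_notMem hxb]
      have h4 : mm ρ x0 x = 0 := mm_zero (by rw [hsq]; exact hxb)
      have h5 : lap ρ x0 x = 0 := by
        unfold lap
        rw [h4]
        simp
      rw [h5]
      simp
  have h6 : Integrable ((closedBall x0 (2 * r)).indicator (fun _ => L)) := by
    rw [integrable_indicator_iff isClosed_closedBall.measurableSet]
    exact integrableOn_const (isCompact_closedBall x0 (2 * r)).measure_lt_top.ne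
  have h7 : ‖∫ x, (u x - h x0) * lap ρ x0 x‖ ≤ ∫ x, (closedBall x0 (2 * r)).indicator (fun _ => L) x :=
    norm_integral_le_of_norm_le h6 h3
  rw [integral_indicator isClosed_closedBall.measurableSet, setIntegral_const, smul_eq_mul] at h7
  have h8 : (volume : Measure (E N)).real (closedBall x0 (2 * r))
      = (2 * r) ^ N * (volume (ball (0 : E N) 1)).toReal := by
    rw [measureReal_def, Measure.addHaar_closedBall _ _ (by positivity), ENNReal.toReal_mul,
      ENNReal.toReal_ofReal (by positivity)]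
    simp
  rw [h8] at h7
  have h9 := neg_abs_le (∫ x, (u x - h x0) * lap ρ x0 x)
  rw [← Real.norm_eq_abs] at h9
  linarith [h7, h9, mul_comm L ((2 * r) ^ N * (volume (ball (0 : E N) 1)).toReal)]

lemma level {ρ : ℝ} (x0 : E N) {c : ℝ} (hc : 0 < c) :
    {x | c ^ 3 ≤ ph ρ x0 x} = {x | ‖x - x0‖ ^ 2 ≤ ρ - c} := by
  ext x
  simp only [mem_ofPred_eq, ph]
  rw [pow_le_pow_iff_left₀ hc.le (mm_nonneg _ _ _) (by norm_num)]
  unfold mm
  constructor
  · intro h
    rcases le_max_iff.1 h with h | h <;> linarith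
  · intro h
    exact le_max_of_le_left (by linarith)

lemma int_ph {ρ : ℝ} (hρ : 0 ≤ ρ) (x0 : E N) (ν : Measure (E N)) [IsFiniteMeasure ν] :
    Integrable (ph ρ x0) ν := by
  refine Integrable.of_bound (C := ρ ^ 3) (cont_ph ρ x0).aestronglyMeasurable
    (ae_of_all _ fun x => ?_)
  rw [Real.norm_eq_abs, abs_of_nonneg (ph_nonneg _ _ _)]
  exact ph_le hρ _ _

/-- comparison of integrals from comparison of balls -/
lemma compare (ν1 ν2 : Measure (E N)) [IsFiniteMeasure ν1] [IsFiniteMeasure ν2] {x0 : E N}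
    {δ r : ℝ} (hr : 0 < r) (hrδ : 2 * r < δ)
    (hd : ∀ t, 0 < t → t < δ → 3 * ν2 (closedBall x0 t) ≤ ν1 (closedBall x0 t)) :
    3 * (∫ y, ph ((2 * r) ^ 2) x0 y ∂ν2) ≤ ∫ y, ph ((2 * r) ^ 2) x0 y ∂ν1 := by
  set ρ : ℝ := (2 * r) ^ 2 with hρd
  have hρ : 0 ≤ ρ := by positivity
  have key : 3 * (∫⁻ y, ENNReal.ofReal (ph ρ x0 y) ∂ν2) ≤ ∫⁻ y, ENNReal.ofReal (ph ρ x0 y) ∂ν1 := by
    rw [lintegral_eq_lintegral_meas_le ν2 (ae_of_all _ (ph_nonneg ρ x0))
      (cont_ph ρ x0).measurable.aemeasurable,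
      lintegral_eq_lintegral_meas_le ν1 (ae_of_all _ (ph_nonneg ρ x0))
      (cont_ph ρ x0).measurable.aemeasurable]
    rw [← lintegral_const_mul' _ _ (by norm_num)]
    refine lintegral_mono_ae ?_
    have hne : ∀ᵐ t ∂(volume.restrict (Ioi (0 : ℝ))), t ≠ ρ ^ 3 := by
      have := (Set.countable_singleton (ρ ^ 3)).ae_notMem (volume.restrict (Ioi (0 : ℝ)))
      simpa using this
    filter_upwards [hne, ae_restrict_mem measurableSet_Ioi] with t ht1 ht0
    have ht0' : (0 : ℝ) < t := ht0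
    obtain ⟨c, hc, hct⟩ : ∃ c : ℝ, 0 < c ∧ c ^ 3 = t := by
      refine ⟨t ^ ((1 : ℝ) / 3), by positivity, ?_⟩
      rw [← Real.rpow_natCast, ← Real.rpow_mul ht0'.le]
      norm_num
    rw [← hct, level x0 hc]
    rcases lt_trichotomy c ρ with hcρ | hcρ | hcρ
    · have h1 : {x : E N | ‖x - x0‖ ^ 2 ≤ ρ - c} = closedBall x0 (√(ρ - c)) := by
        ext x
        rw [mem_closedBall, dist_eq_norm, mem_ofPred_eq, Real.le_sqrt (norm_nonneg _)]
        linarith
      rw [h1]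
      refine hd _ (Real.sqrt_pos.2 (by linarith)) ?_
      have h2 : √(ρ - c) < √ρ := Real.sqrt_lt_sqrt (by linarith) (by linarith)
      have h3 : √ρ = 2 * r := Real.sqrt_sq (by positivity)
      linarith
    · exact absurd (by rw [← hct, hcρ]) ht1
    · have h1 : {x : E N | ‖x - x0‖ ^ 2 ≤ ρ - c} = ∅ := by
        ext x
        simp only [mem_ofPred_eq, mem_empty_iff_false, iff_false, not_le]
        have := sq_nonneg ‖x - x0‖
        linarith
      rw [h1]
      simp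
  rw [integral_eq_lintegral_of_nonneg_ae (ae_of_all _ (ph_nonneg ρ x0))
    (cont_ph ρ x0).aestronglyMeasurable,
    integral_eq_lintegral_of_nonneg_ae (ae_of_all _ (ph_nonneg ρ x0))
    (cont_ph ρ x0).aestronglyMeasurable]
  have hfin : (∫⁻ y, ENNReal.ofReal (ph ρ x0 y) ∂ν1) ≠ ⊤ := by
    have := (int_ph hρ x0 ν1).lintegral_lt_top
    exact this.ne
  have := ENNReal.toReal_mono hfin key
  rwa [ENNReal.toReal_mul, ENNReal.toReal_ofNat] at this

lemma ph_lower {r : ℝ} (hr : 0 < r) (x0 : E N) (ν : Measure (E N)) [IsFiniteMeasure ν] :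
    27 * r ^ 6 * (ν (closedBall x0 r)).toReal ≤ ∫ y, ph ((2 * r) ^ 2) x0 y ∂ν := by
  have h1 : ∫ y, (closedBall x0 r).indicator (fun _ => 27 * r ^ 6) y ∂ν
      ≤ ∫ y, ph ((2 * r) ^ 2) x0 y ∂ν := by
    refine integral_mono ?_ (int_ph (by positivity) x0 ν) fun y => ?_
    · rw [integrable_indicator_iff isClosed_closedBall.measurableSet]
      exact integrableOn_const (measure_ne_top _ _)
    · by_cases hy : y ∈ closedBall x0 r
      · rw [indicator_of_mem hy]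
        rw [mem_closedBall, dist_eq_norm] at hy
        have h2 : 3 * r ^ 2 ≤ mm ((2 * r) ^ 2) x0 y := by
          unfold mm
          refine le_max_of_le_left ?_
          have : ‖y - x0‖ ^ 2 ≤ r ^ 2 := pow_le_pow_left₀ (norm_nonneg _) hy 2
          nlinarith
        have h3 : (3 * r ^ 2) ^ 3 ≤ (mm ((2 * r) ^ 2) x0 y) ^ 3 :=
          pow_le_pow_left₀ (by positivity) h2 3
        unfold ph
        calc 27 * r ^ 6 = (3 * r ^ 2) ^ 3 := by ring
          _ ≤ _ := h3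
      · rw [indicator_of_notMem hy]
        exact ph_nonneg _ _ _
  rw [integral_indicator isClosed_closedBall.measurableSet, setIntegral_const, smul_eq_mul,
    measureReal_def] at h1
  linarith [mul_comm (27 * r ^ 6) (ν (closedBall x0 r)).toReal]

/-- The density bound at a point. -/
lemma density (hN : 0 < N) {q : ℝ → ℝ} {a : ℝ} (ha : 0 < a) (hqm : Measurable q)
    (hq : ∀ s, 0 < s → HasDerivAt q (-a * s ^ (-(N : ℝ) / 2)) s)
    (hloc : LocallyIntegrable (fun z : E N => q (‖z‖ ^ 2)))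
    {R1 : ℝ} {Ω : Set (E N)} (hΩ : IsOpen Ω) {K β : ℝ} (hK : 0 ≤ K) (hβ : 0 < β) :
    ∃ C : ℝ, 0 < C ∧ ∀ (h : E N → ℝ), (∀ x ∈ Ω, ∀ y ∈ Ω, |h x - h y| ≤ K * ‖x - y‖ ^ β) →
      ∀ (ν1 ν2 : Measure (E N)) [IsFiniteMeasure ν1] [IsFiniteMeasure ν2],
      (∀ᵐ y ∂ν1, ‖y‖ ≤ R1) → (∀ᵐ y ∂ν2, ‖y‖ ≤ R1) →
      (∀ᵐ x ∂(volume.restrict Ω),
        (∫ y, q (‖x - y‖ ^ 2) ∂ν1) - (∫ y, q (‖x - y‖ ^ 2) ∂ν2) = h x) →
      ∀ x0 ∈ Ω, (∃ δ > 0, ∀ t, 0 < t → t < δ →
        3 * ν2 (closedBall x0 t) ≤ ν1 (closedBall x0 t)) →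
      ∃ δ > 0, ∀ r, 0 < r → r < δ →
        (ν1 + ν2) (closedBall x0 r) ≤ ENNReal.ofReal (C * r ^ ((N : ℝ) - 2 + β)) := by
  set D : ℝ := 2 * a * N * kap N with hD
  have hD0 : 0 < D := by
    have h1 := kap_pos N
    have h2 : (0 : ℝ) < N := by exact_mod_cast hN
    positivity
  set ω : ℝ := (volume (ball (0 : E N) 1)).toReal with hω
  have hω0 : 0 ≤ ω := ENNReal.toReal_nonneg
  set M1 : ℝ := K * 2 ^ β * (24 + 6 * N) * 16 * 2 ^ N * ω with hM1
  have hM0 : 0 ≤ M1 := by positivity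
  refine ⟨2 * (M1 / (18 * D)) + 1, by positivity, ?_⟩
  intro h hh ν1 ν2 _ _ hν1 hν2 hu x0 hx0 ⟨δ1, hδ1, hd⟩
  obtain ⟨δ2, hδ2, hball⟩ := Metric.isOpen_iff.1 hΩ x0 hx0
  refine ⟨min (δ1 / 2) (δ2 / 2), by positivity, ?_⟩
  intro r hr hrδ
  have hr1 : 2 * r < δ1 := by
    have := hrδ.trans_le (min_le_left _ _)
    linarith
  have hr2 : 2 * r < δ2 := by
    have := hrδ.trans_le (min_le_right _ _)
    linarith
  have hB : closedBall x0 (2 * r) ⊆ Ω := (closedBall_subset_ball hr2).trans hball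
  have h1 := main_est hN ha.le hqm hq hloc ν1 ν2 hν1 hν2 hΩ.measurableSet hK hβ hh hu hr hB
  rw [← hD, ← hω] at h1
  have h2 := compare ν1 ν2 hr hr1 hd
  have h3 := ph_lower hr x0 ν1
  set I1 := ∫ y, ph ((2 * r) ^ 2) x0 y ∂ν1 with hI1
  set I2 := ∫ y, ph ((2 * r) ^ 2) x0 y ∂ν2 with hI2
  set V : ℝ := (ν1 (closedBall x0 r)).toReal with hV
  have hV0 : 0 ≤ V := ENNReal.toReal_nonneg
  have hpow : r ^ 6 * r ^ ((N : ℝ) - 2 + β) = r ^ 4 * r ^ N * r ^ β := by
    have h4 : r ^ ((N : ℝ) - 2 + β) * r ^ (2 : ℝ) = r ^ N * r ^ β := by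
      rw [← Real.rpow_add hr, ← Real.rpow_natCast r N, ← Real.rpow_add hr]
      congr 1
      ring
    have h5 : r ^ (2 : ℝ) = r ^ 2 := by norm_cast
    rw [h5] at h4
    calc r ^ 6 * r ^ ((N : ℝ) - 2 + β) = r ^ 4 * (r ^ ((N : ℝ) - 2 + β) * r ^ 2) := by ring
      _ = _ := by rw [h4]; ring
  have hRHS : (K * (2 * r) ^ β * ((24 + 6 * N) * ((2 * r) ^ 2) ^ 2)) * ((2 * r) ^ N * ω)
      = r ^ 6 * (M1 * r ^ ((N : ℝ) - 2 + β)) := by
    have : r ^ 6 * (M1 * r ^ ((N : ℝ) - 2 + β)) = M1 * (r ^ 6 * r ^ ((N : ℝ) - 2 + β)) := by ring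
    rw [this, hpow, hM1, Real.mul_rpow (by norm_num) hr.le, mul_pow]
    ring
  rw [hRHS] at h1
  have h6 : r ^ 6 * (18 * D * V) ≤ r ^ 6 * (M1 * r ^ ((N : ℝ) - 2 + β)) := by
    refine le_trans ?_ h1
    have h7 : (2 / 3) * (27 * r ^ 6 * V) ≤ I1 - I2 := by linarith
    calc r ^ 6 * (18 * D * V) = D * ((2 / 3) * (27 * r ^ 6 * V)) := by ring
      _ ≤ D * (I1 - I2) := by gcongr
  have h8 : 18 * D * V ≤ M1 * r ^ ((N : ℝ) - 2 + β) := le_of_mul_le_mul_left h6 (by positivity)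
  have h9 : V ≤ M1 / (18 * D) * r ^ ((N : ℝ) - 2 + β) := by
    rw [div_mul_eq_mul_div, le_div_iff₀ (by positivity)]
    linarith
  have h10 : ν2 (closedBall x0 r) ≤ ν1 (closedBall x0 r) := by
    have h11 := hd r hr (by linarith)
    refine le_trans ?_ h11
    calc ν2 (closedBall x0 r) = 1 * ν2 (closedBall x0 r) := (one_mul _).symm
      _ ≤ 3 * ν2 (closedBall x0 r) := by gcongr; norm_num
  have h12 : ν1 (closedBall x0 r) = ENNReal.ofReal V := (ENNReal.ofReal_toReal (measure_ne_top _ _)).symm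
  calc (ν1 + ν2) (closedBall x0 r) = ν1 (closedBall x0 r) + ν2 (closedBall x0 r) := by
        rw [Measure.add_apply]
    _ ≤ ν1 (closedBall x0 r) + ν1 (closedBall x0 r) := by gcongr
    _ = ENNReal.ofReal (V + V) := by rw [h12, ENNReal.ofReal_add hV0 hV0]
    _ ≤ _ := by
        refine ENNReal.ofReal_le_ofReal ?_
        have : 0 ≤ r ^ ((N : ℝ) - 2 + β) := by positivity
        nlinarith

/-- density bound implies domination by Hausdorff measure -/
lemma hausdorff (μ : Measure (E N)) [IsFiniteMeasure μ] {C s : ℝ} (hC : 0 < C) (hs : 0 < s)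
    (h : ∀ᵐ x ∂μ, ∃ δ > 0, ∀ r, 0 < r → r < δ → μ (closedBall x r) ≤ ENNReal.ofReal (C * r ^ s))
    (A : Set (E N)) : μ A ≤ ENNReal.ofReal C * μH[s] A := by
  set T : ℕ → Set (E N) := fun k => {x | ∀ r, 0 < r → r < 1 / ((k : ℝ) + 1) →
    μ (closedBall x r) ≤ ENNReal.ofReal (C * r ^ s)} with hT
  have hmono : Monotone T := by
    intro k l hkl x hx r hr0 hr
    refine hx r hr0 (hr.trans_le ?_)
    have : (k : ℝ) ≤ l := by exact_mod_cast hkl
    gcongr
  have hcov : μ (⋃ k, T k)ᶜ = 0 := by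
    rw [← mem_ae_iff]
    filter_upwards [h] with x hx
    obtain ⟨δ, hδ, hx⟩ := hx
    obtain ⟨k, hk⟩ := exists_nat_one_div_lt hδ
    exact mem_iUnion.2 ⟨k, fun r hr0 hr => hx r hr0 (hr.trans hk)⟩
  have hk : ∀ k, μ.restrict (T k) ≤ ENNReal.ofReal C • μH[s] := by
    intro k
    have hC' : ENNReal.ofReal C ≠ 0 := by simpa using hC
    have hC'' : ENNReal.ofReal C ≠ ⊤ := ENNReal.ofReal_ne_top
    have h1 : (ENNReal.ofReal C)⁻¹ • μ.restrict (T k) ≤ μH[s] := by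
      have hε : (0 : ℝ) < 1 / (2 * ((k : ℝ) + 1)) := by positivity
      refine Measure.le_hausdorffMeasure s _ (ENNReal.ofReal (1 / (2 * ((k : ℝ) + 1)))) (by simpa using hε) ?_
      intro t ht
      rw [Measure.smul_apply, smul_eq_mul]
      rw [ENNReal.inv_mul_le_iff hC' hC'']
      have h2 : μ.restrict (T k) t ≤ μ.restrict (T k) (closure t) := measure_mono subset_closure
      refine h2.trans ?_
      rw [Measure.restrict_apply isClosed_closure.measurableSet]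
      rcases (closure t ∩ T k).eq_empty_or_nonempty with he | ⟨x, hx1, hx2⟩
      · rw [he]
        simp
      · have hfin : ediam t ≠ ⊤ := ne_top_of_le_ne_top ENNReal.ofReal_ne_top ht
        set d : ℝ := (ediam t).toReal with hd
        have hd0 : 0 ≤ d := ENNReal.toReal_nonneg
        have hdd : ediam t = ENNReal.ofReal d := (ENNReal.ofReal_toReal hfin).symm
        have hdle : d ≤ 1 / (2 * ((k : ℝ) + 1)) := by
          rw [hdd] at ht
          exact (ENNReal.ofReal_le_ofReal_iff hε.le).1 ht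
        have hdlt : d < 1 / ((k : ℝ) + 1) := by
          refine lt_of_le_of_lt hdle ?_
          have : (0 : ℝ) < (k : ℝ) + 1 := by positivity
          rw [div_lt_div_iff₀ (by positivity) (by positivity)]
          linarith
        have hsub : ∀ r, d < r → closure t ⊆ closedBall x r := by
          intro r hr y hy
          have h3 : edist y x ≤ ediam (closure t) := edist_le_ediam_of_mem hy hx1
          rw [Metric.ediam_closure, hdd, edist_dist] at h3
          have h4 := (ENNReal.ofReal_le_ofReal_iff hd0).1 h3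
          exact mem_closedBall.2 (h4.trans hr.le)
        have h5 : ∀ᶠ r in 𝓝[>] d, μ (closure t ∩ T k) ≤ ENNReal.ofReal (C * r ^ s) := by
          filter_upwards [self_mem_nhdsWithin, Ioo_mem_nhdsGT hdlt] with r hr1 hr2
          have hr1' : d < r := hr1
          refine (measure_mono (inter_subset_left.trans (hsub r hr1'))).trans ?_
          exact hx2 r (lt_of_le_of_lt hd0 hr1') hr2.2
        have h6 : Tendsto (fun r : ℝ => ENNReal.ofReal (C * r ^ s)) (𝓝[>] d)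
            (𝓝 (ENNReal.ofReal (C * d ^ s))) := by
          refine (ENNReal.continuous_ofReal.tendsto _).comp ?_
          refine Tendsto.const_mul _ ?_
          exact ((Real.continuous_rpow_const hs.le).tendsto d).mono_left nhdsWithin_le_nhds
        have h7 := ge_of_tendsto h6 h5
        refine h7.trans ?_
        rw [ENNReal.ofReal_mul hC.le, hdd, ENNReal.ofReal_rpow_of_nonneg hd0 hs.le]
    intro S
    have h8 := h1 S
    rw [Measure.smul_apply, smul_eq_mul, ENNReal.inv_mul_le_iff hC' hC''] at h8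
    simpa using h8
  calc μ A ≤ μ ((A ∩ ⋃ k, T k) ∪ (⋃ k, T k)ᶜ) := by
        refine measure_mono fun x hx => ?_
        by_cases hxT : x ∈ ⋃ k, T k
        · exact Or.inl ⟨hx, hxT⟩
        · exact Or.inr hxT
    _ ≤ μ (A ∩ ⋃ k, T k) + μ (⋃ k, T k)ᶜ := measure_union_le _ _
    _ = μ (⋃ k, A ∩ T k) := by rw [hcov, add_zero, inter_iUnion]
    _ = ⨆ k, μ (A ∩ T k) := by
        refine Monotone.measure_iUnion ?_
        exact fun k l hkl => inter_subset_inter_right _ (hmono hkl)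
    _ ≤ ENNReal.ofReal C * μH[s] A := by
        refine iSup_le fun k => ?_
        refine (Measure.le_restrict_apply _ _).trans ?_
        have := hk k A
        simpa using this

end Pool.Agent.H200.NewtonC
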